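import Pool.Agent.Lib_helper67.ScdSound
import Pool.Agent.Lib_helper67.ScdC00
import Pool.Agent.Lib_helper67.ScdC01
import Pool.Agent.Lib_helper67.ScdC02
import Pool.Agent.Lib_helper67.ScdC03
import Pool.Agent.Lib_helper67.ScdC04
import Pool.Agent.Lib_helper67.ScdC05
import Pool.Agent.Lib_helper67.ScdC06
import Pool.Agent.Lib_helper67.ScdC07
import Pool.Agent.Lib_helper67.ScdC08
import Pool.Agent.Lib_helper67.ScdC09
import Pool.Agent.Lib_helper67.ScdC10
import Pool.Agent.Lib_helper67.ScdC11
import Pool.Agent.Lib_helper67.ScdC12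
import Pool.Agent.Lib_helper67.ScdC13
import Pool.Agent.Lib_helper67.ScdC14
import Pool.Agent.Lib_helper67.ScdC15
import Pool.Agent.Lib_helper67.ScdC16
import Pool.Agent.Lib_helper67.ScdC17
import Pool.Agent.Lib_helper67.ScdC18
import Pool.Agent.Lib_helper67.ScdC19
import Pool.Agent.Lib_helper67.ScdC20
import Pool.Agent.Lib_helper67.ScdC21
import Pool.Agent.Lib_helper67.ScdC22
import Pool.Agent.Lib_helper67.ScdC23

set_option autoImplicit false

namespace Pool.Agent.Scd67

theorem p1 : Prev 1 := Prev.succ (by norm_num) Prev.zero _ t0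
theorem p2 : Prev 2 := Prev.succ (by norm_num) p1 _ t1
theorem p3 : Prev 3 := Prev.succ (by norm_num) p2 _ t2
theorem p4 : Prev 4 := Prev.succ (by norm_num) p3 _ t3
theorem p5 : Prev 5 := Prev.succ (by norm_num) p4 _ t4
theorem p6 : Prev 6 := Prev.succ (by norm_num) p5 _ t5
theorem p7 : Prev 7 := Prev.succ (by norm_num) p6 _ t6
theorem p8 : Prev 8 := Prev.succ (by norm_num) p7 _ t7
theorem p9 : Prev 9 := Prev.succ (by norm_num) p8 _ t8
theorem p10 : Prev 10 := Prev.succ (by norm_num) p9 _ t9
theorem p11 : Prev 11 := Prev.succ (by norm_num) p10 _ t10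
theorem p12 : Prev 12 := Prev.succ (by norm_num) p11 _ t11
theorem p13 : Prev 13 := Prev.succ (by norm_num) p12 _ t12
theorem p14 : Prev 14 := Prev.succ (by norm_num) p13 _ t13
theorem p15 : Prev 15 := Prev.succ (by norm_num) p14 _ t14
theorem p16 : Prev 16 := Prev.succ (by norm_num) p15 _ t15
theorem p17 : Prev 17 := Prev.succ (by norm_num) p16 _ t16
theorem p18 : Prev 18 := Prev.succ (by norm_num) p17 _ t17
theorem p19 : Prev 19 := Prev.succ (by norm_num) p18 _ t18
theorem p20 : Prev 20 := Prev.succ (by norm_num) p19 _ t19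
theorem p21 : Prev 21 := Prev.succ (by norm_num) p20 _ t20
theorem p22 : Prev 22 := Prev.succ (by norm_num) p21 _ t21
theorem p23 : Prev 23 := Prev.succ (by norm_num) p22 _ t22
theorem p24 : Prev 24 := Prev.succ (by norm_num) p23 _ t23
theorem p25 : Prev 25 := Prev.succ (by norm_num) p24 _ t24
theorem p26 : Prev 26 := Prev.succ (by norm_num) p25 _ t25
theorem p27 : Prev 27 := Prev.succ (by norm_num) p26 _ t26
theorem p28 : Prev 28 := Prev.succ (by norm_num) p27 _ t27
theorem p29 : Prev 29 := Prev.succ (by norm_num) p28 _ t28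
theorem p30 : Prev 30 := Prev.succ (by norm_num) p29 _ t29
theorem p31 : Prev 31 := Prev.succ (by norm_num) p30 _ t30
theorem p32 : Prev 32 := Prev.succ (by norm_num) p31 _ t31
theorem p33 : Prev 33 := Prev.succ (by norm_num) p32 _ t32
theorem p34 : Prev 34 := Prev.succ (by norm_num) p33 _ t33
theorem p35 : Prev 35 := Prev.succ (by norm_num) p34 _ t34
theorem p36 : Prev 36 := Prev.succ (by norm_num) p35 _ t35
theorem p37 : Prev 37 := Prev.succ (by norm_num) p36 _ t36
theorem p38 : Prev 38 := Prev.succ (by norm_num) p37 _ t37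
theorem p39 : Prev 39 := Prev.succ (by norm_num) p38 _ t38
theorem p40 : Prev 40 := Prev.succ (by norm_num) p39 _ t39
theorem p41 : Prev 41 := Prev.succ (by norm_num) p40 _ t40
theorem p42 : Prev 42 := Prev.succ (by norm_num) p41 _ t41
theorem p43 : Prev 43 := Prev.succ (by norm_num) p42 _ t42
theorem p44 : Prev 44 := Prev.succ (by norm_num) p43 _ t43
theorem p45 : Prev 45 := Prev.succ (by norm_num) p44 _ t44
theorem p46 : Prev 46 := Prev.succ (by norm_num) p45 _ t45
theorem p47 : Prev 47 := Prev.succ (by norm_num) p46 _ t46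
theorem p48 : Prev 48 := Prev.succ (by norm_num) p47 _ t47
theorem p49 : Prev 49 := Prev.succ (by norm_num) p48 _ t48
theorem p50 : Prev 50 := Prev.succ (by norm_num) p49 _ t49
theorem p51 : Prev 51 := Prev.succ (by norm_num) p50 _ t50
theorem p52 : Prev 52 := Prev.succ (by norm_num) p51 _ t51
theorem p53 : Prev 53 := Prev.succ (by norm_num) p52 _ t52
theorem p54 : Prev 54 := Prev.succ (by norm_num) p53 _ t53
theorem p55 : Prev 55 := Prev.succ (by norm_num) p54 _ t54
theorem p56 : Prev 56 := Prev.succ (by norm_num) p55 _ t55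
theorem p57 : Prev 57 := Prev.succ (by norm_num) p56 _ t56
theorem p58 : Prev 58 := Prev.succ (by norm_num) p57 _ t57
theorem p59 : Prev 59 := Prev.succ (by norm_num) p58 _ t58
theorem p60 : Prev 60 := Prev.succ (by norm_num) p59 _ t59
theorem p61 : Prev 61 := Prev.succ (by norm_num) p60 _ t60
theorem p62 : Prev 62 := Prev.succ (by norm_num) p61 _ t61
theorem p63 : Prev 63 := Prev.succ (by norm_num) p62 _ t62
theorem p64 : Prev 64 := Prev.succ (by norm_num) p63 _ t63
theorem p65 : Prev 65 := Prev.succ (by norm_num) p64 _ t64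
theorem p66 : Prev 66 := Prev.succ (by norm_num) p65 _ t65
theorem p67 : Prev 67 := Prev.succ (by norm_num) p66 _ t66
theorem p68 : Prev 68 := Prev.succ (by norm_num) p67 _ t67
theorem p69 : Prev 69 := Prev.succ (by norm_num) p68 _ t68
theorem p70 : Prev 70 := Prev.succ (by norm_num) p69 _ t69
theorem p71 : Prev 71 := Prev.succ (by norm_num) p70 _ t70
theorem p72 : Prev 72 := Prev.succ (by norm_num) p71 _ t71
theorem p73 : Prev 73 := Prev.succ (by norm_num) p72 _ t72
theorem p74 : Prev 74 := Prev.succ (by norm_num) p73 _ t73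
theorem p75 : Prev 75 := Prev.succ (by norm_num) p74 _ t74
theorem p76 : Prev 76 := Prev.succ (by norm_num) p75 _ t75
theorem p77 : Prev 77 := Prev.succ (by norm_num) p76 _ t76
theorem p78 : Prev 78 := Prev.succ (by norm_num) p77 _ t77
theorem p79 : Prev 79 := Prev.succ (by norm_num) p78 _ t78
theorem p80 : Prev 80 := Prev.succ (by norm_num) p79 _ t79
theorem p81 : Prev 81 := Prev.succ (by norm_num) p80 _ t80
theorem p82 : Prev 82 := Prev.succ (by norm_num) p81 _ t81
theorem p83 : Prev 83 := Prev.succ (by norm_num) p82 _ t82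
theorem p84 : Prev 84 := Prev.succ (by norm_num) p83 _ t83
theorem p85 : Prev 85 := Prev.succ (by norm_num) p84 _ t84
theorem p86 : Prev 86 := Prev.succ (by norm_num) p85 _ t85
theorem p87 : Prev 87 := Prev.succ (by norm_num) p86 _ t86
theorem p88 : Prev 88 := Prev.succ (by norm_num) p87 _ t87
theorem p89 : Prev 89 := Prev.succ (by norm_num) p88 _ t88
theorem p90 : Prev 90 := Prev.succ (by norm_num) p89 _ t89
theorem p91 : Prev 91 := Prev.succ (by norm_num) p90 _ t90
theorem p92 : Prev 92 := Prev.succ (by norm_num) p91 _ t91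
theorem p93 : Prev 93 := Prev.succ (by norm_num) p92 _ t92
theorem p94 : Prev 94 := Prev.succ (by norm_num) p93 _ t93
theorem p95 : Prev 95 := Prev.succ (by norm_num) p94 _ t94
theorem p96 : Prev 96 := Prev.succ (by norm_num) p95 _ t95
theorem p97 : Prev 97 := Prev.succ (by norm_num) p96 _ t96
theorem p98 : Prev 98 := Prev.succ (by norm_num) p97 _ t97
theorem p99 : Prev 99 := Prev.succ (by norm_num) p98 _ t98
theorem p100 : Prev 100 := Prev.succ (by norm_num) p99 _ t99
theorem p101 : Prev 101 := Prev.succ (by norm_num) p100 _ t100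
theorem p102 : Prev 102 := Prev.succ (by norm_num) p101 _ t101
theorem p103 : Prev 103 := Prev.succ (by norm_num) p102 _ t102
theorem p104 : Prev 104 := Prev.succ (by norm_num) p103 _ t103
theorem p105 : Prev 105 := Prev.succ (by norm_num) p104 _ t104
theorem p106 : Prev 106 := Prev.succ (by norm_num) p105 _ t105
theorem p107 : Prev 107 := Prev.succ (by norm_num) p106 _ t106
theorem p108 : Prev 108 := Prev.succ (by norm_num) p107 _ t107
theorem p109 : Prev 109 := Prev.succ (by norm_num) p108 _ t108
theorem p110 : Prev 110 := Prev.succ (by norm_num) p109 _ t109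
theorem p111 : Prev 111 := Prev.succ (by norm_num) p110 _ t110
theorem p112 : Prev 112 := Prev.succ (by norm_num) p111 _ t111
theorem p113 : Prev 113 := Prev.succ (by norm_num) p112 _ t112
theorem p114 : Prev 114 := Prev.succ (by norm_num) p113 _ t113
theorem p115 : Prev 115 := Prev.succ (by norm_num) p114 _ t114
theorem p116 : Prev 116 := Prev.succ (by norm_num) p115 _ t115
theorem p117 : Prev 117 := Prev.succ (by norm_num) p116 _ t116
theorem p118 : Prev 118 := Prev.succ (by norm_num) p117 _ t117
theorem p119 : Prev 119 := Prev.succ (by norm_num) p118 _ t118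
theorem p120 : Prev 120 := Prev.succ (by norm_num) p119 _ t119
theorem p121 : Prev 121 := Prev.succ (by norm_num) p120 _ t120
theorem p122 : Prev 122 := Prev.succ (by norm_num) p121 _ t121
theorem p123 : Prev 123 := Prev.succ (by norm_num) p122 _ t122
theorem p124 : Prev 124 := Prev.succ (by norm_num) p123 _ t123
theorem p125 : Prev 125 := Prev.succ (by norm_num) p124 _ t124
theorem p126 : Prev 126 := Prev.succ (by norm_num) p125 _ t125
theorem p127 : Prev 127 := Prev.succ (by norm_num) p126 _ t126
theorem p128 : Prev 128 := Prev.succ (by norm_num) p127 _ t127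
theorem p129 : Prev 129 := Prev.succ (by norm_num) p128 _ t128
theorem p130 : Prev 130 := Prev.succ (by norm_num) p129 _ t129
theorem p131 : Prev 131 := Prev.succ (by norm_num) p130 _ t130
theorem p132 : Prev 132 := Prev.succ (by norm_num) p131 _ t131
theorem p133 : Prev 133 := Prev.succ (by norm_num) p132 _ t132
theorem p134 : Prev 134 := Prev.succ (by norm_num) p133 _ t133
theorem p135 : Prev 135 := Prev.succ (by norm_num) p134 _ t134
theorem p136 : Prev 136 := Prev.succ (by norm_num) p135 _ t135
theorem p137 : Prev 137 := Prev.succ (by norm_num) p136 _ t136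
theorem p138 : Prev 138 := Prev.succ (by norm_num) p137 _ t137
theorem p139 : Prev 139 := Prev.succ (by norm_num) p138 _ t138
theorem p140 : Prev 140 := Prev.succ (by norm_num) p139 _ t139
theorem p141 : Prev 141 := Prev.succ (by norm_num) p140 _ t140
theorem p142 : Prev 142 := Prev.succ (by norm_num) p141 _ t141
theorem p143 : Prev 143 := Prev.succ (by norm_num) p142 _ t142
theorem p144 : Prev 144 := Prev.succ (by norm_num) p143 _ t143
theorem p145 : Prev 145 := Prev.succ (by norm_num) p144 _ t144
theorem p146 : Prev 146 := Prev.succ (by norm_num) p145 _ t145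
theorem p147 : Prev 147 := Prev.succ (by norm_num) p146 _ t146
theorem p148 : Prev 148 := Prev.succ (by norm_num) p147 _ t147
theorem p149 : Prev 149 := Prev.succ (by norm_num) p148 _ t148
theorem p150 : Prev 150 := Prev.succ (by norm_num) p149 _ t149
theorem p151 : Prev 151 := Prev.succ (by norm_num) p150 _ t150
theorem p152 : Prev 152 := Prev.succ (by norm_num) p151 _ t151
theorem p153 : Prev 153 := Prev.succ (by norm_num) p152 _ t152
theorem p154 : Prev 154 := Prev.succ (by norm_num) p153 _ t153
theorem p155 : Prev 155 := Prev.succ (by norm_num) p154 _ t154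
theorem p156 : Prev 156 := Prev.succ (by norm_num) p155 _ t155
theorem p157 : Prev 157 := Prev.succ (by norm_num) p156 _ t156
theorem p158 : Prev 158 := Prev.succ (by norm_num) p157 _ t157
theorem p159 : Prev 159 := Prev.succ (by norm_num) p158 _ t158
theorem p160 : Prev 160 := Prev.succ (by norm_num) p159 _ t159
theorem p161 : Prev 161 := Prev.succ (by norm_num) p160 _ t160

/-- the 6-cube has no four pairwise almost orthogonal symmetric chain decompositions -/
theorem no_fam (S : Fin 4 → Finset (Fin 6) → Finset (Fin 6) → Prop) : ¬ Fam S :=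
  final_sound p161 _ tFinal S

end Pool.Agent.Scd67
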