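import Pool.Agent.Lib_helper67.ScdSem3

set_option autoImplicit false

namespace Pool.Agent.Scd67

open Finset

variable {S : Fin 4 → Finset (Fin 6) → Finset (Fin 6) → Prop}

/-- the set av contains all true variables -/
def G (S : Fin 4 → Finset (Fin 6) → Finset (Fin 6) → Prop) (av : ℕ) : Prop :=
  ∀ w, P S w → av.testBit w = true

theorem G_nc (hS : Fam S) {p av : ℕ} (hp : P S p) (h : G S av) : G S (av &&& nc p) := by
  intro w hw
  rw [Nat.testBit_and, h w hw, nc_spec hS hp hw]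
  rfl

theorem nb_eq (p : ℕ) : nb p = ALL ^^^ 2 ^ p := rfl

theorem G_nb {p av : ℕ} (hp : ¬ P S p) (h : G S av) : G S (av &&& nb p) := by
  intro w hw
  have hne : ¬ (p = w) := fun he => hp (he ▸ hw)
  rw [Nat.testBit_and, h w hw, nb_eq, Nat.testBit_xor, all_bit hw.lt, Nat.testBit_two_pow]
  simp [hne]

theorem G_E (hS : Fam S) {p av ty : ℕ} (hp : p < 3600) (h0 : av &&& item ty p = 0) : ¬ G S av := by
  intro h
  obtain ⟨w, hw, hb⟩ := item_spec hS ty hp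
  have : (av &&& item ty p).testBit w = true := by rw [Nat.testBit_and, h w hw, hb]; rfl
  rw [h0] at this
  simp at this

theorem G_U (hS : Fam S) {p av ty : ℕ} (hp : p < 3600) (h0 : av &&& (item ty p ^^^ 2 ^ p) = 0)
    (h : G S av) : P S p := by
  obtain ⟨w, hw, hb⟩ := item_spec hS ty hp
  by_contra hnp
  have hne : ¬ (p = w) := fun he => hnp (he ▸ hw)
  have : (av &&& (item ty p ^^^ 2 ^ p)).testBit w = true := by
    rw [Nat.testBit_and, h w hw, Nat.testBit_xor, hb, Nat.testBit_two_pow]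
    simp [hne]
  rw [h0] at this
  simp at this

theorem fsc : ∀ c < 64, fs (63 - c) = (fs c)ᶜ := by decide +kernel

theorem digN {t : ℕ} (ht : t < 720) : ∃ a b x y : Fin 6, a ≠ b ∧ a ≠ x ∧ b ≠ x ∧ a ≠ y ∧ b ≠ y ∧
    x ≠ y ∧ dig (qOf t) 0 = a.val ∧ dig (qOf t) 3 = b.val ∧ dig (qOf t) 6 = x.val ∧
    dig (qOf t) 9 = y.val ∧ fs (cA t) = {a, b} ∧ fs (cM t) = {a, b, x} ∧
    fs (cB t) = {a, b, x, y} := by
  obtain ⟨⟨l0, l3, l6, l9, l12, l15⟩, ⟨n1, n2, n3, n4, n5, n6⟩, ⟨m1, m2, m3, m4, m5⟩, ⟨c1, c2, c3⟩,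
    ⟨c4, c5, c6⟩⟩ := dig_chk t ht
  have f1 := fs2 ⟨_, l0⟩ ⟨_, l3⟩ (Fin.ne_of_val_ne n1)
  have f2 := fs3 ⟨_, l0⟩ ⟨_, l3⟩ ⟨_, l6⟩ (Fin.ne_of_val_ne n1) (Fin.ne_of_val_ne n2)
    (Fin.ne_of_val_ne n3)
  have f3 := fs4 ⟨_, l0⟩ ⟨_, l3⟩ ⟨_, l6⟩ ⟨_, l9⟩ (Fin.ne_of_val_ne n1) (Fin.ne_of_val_ne n2)
    (Fin.ne_of_val_ne n3) (Fin.ne_of_val_ne n4) (Fin.ne_of_val_ne n5) (Fin.ne_of_val_ne n6)
  refine ⟨⟨_, l0⟩, ⟨_, l3⟩, ⟨_, l6⟩, ⟨_, l9⟩, Fin.ne_of_val_ne n1, Fin.ne_of_val_ne n2,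
    Fin.ne_of_val_ne n3, Fin.ne_of_val_ne n4, Fin.ne_of_val_ne n5, Fin.ne_of_val_ne n6,
    rfl, rfl, rfl, rfl, ?_, ?_, ?_⟩
  · rw [c1]; exact f1
  · rw [c2]; exact f2
  · rw [c3]; exact f3

theorem digD {t : ℕ} (ht : t < 720) : ∃ e f y x : Fin 6, e ≠ f ∧ e ≠ y ∧ f ≠ y ∧ e ≠ x ∧ f ≠ x ∧
    y ≠ x ∧ dig (qOf t) 12 = e.val ∧ dig (qOf t) 15 = f.val ∧ dig (qOf t) 9 = y.val ∧
    dig (qOf t) 6 = x.val ∧ (fs (cB t))ᶜ = {e, f} ∧ (fs (cM t))ᶜ = {e, f, y} ∧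
    (fs (cA t))ᶜ = {e, f, y, x} := by
  obtain ⟨⟨l0, l3, l6, l9, l12, l15⟩, ⟨n1, n2, n3, n4, n5, n6⟩, ⟨m1, m2, m3, m4, m5⟩, ⟨c1, c2, c3⟩,
    ⟨c4, c5, c6⟩⟩ := dig_chk t ht
  have f1 := fs2 ⟨_, l12⟩ ⟨_, l15⟩ (Fin.ne_of_val_ne m1)
  have f2 := fs3 ⟨_, l12⟩ ⟨_, l15⟩ ⟨_, l9⟩ (Fin.ne_of_val_ne m1) (Fin.ne_of_val_ne m2)
    (Fin.ne_of_val_ne m3)
  have f3 := fs4 ⟨_, l12⟩ ⟨_, l15⟩ ⟨_, l9⟩ ⟨_, l6⟩ (Fin.ne_of_val_ne m1) (Fin.ne_of_val_ne m2)
    (Fin.ne_of_val_ne m3) (Fin.ne_of_val_ne m4) (Fin.ne_of_val_ne m5)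
    (Fin.ne_of_val_ne (Ne.symm n6))
  refine ⟨⟨_, l12⟩, ⟨_, l15⟩, ⟨_, l9⟩, ⟨_, l6⟩, Fin.ne_of_val_ne m1, Fin.ne_of_val_ne m2,
    Fin.ne_of_val_ne m3, Fin.ne_of_val_ne m4, Fin.ne_of_val_ne m5, Fin.ne_of_val_ne (Ne.symm n6),
    rfl, rfl, rfl, rfl, ?_, ?_, ?_⟩
  · rw [← fsc _ (cB_lt t), c4]; exact f1
  · rw [← fsc _ (cM_lt t), c5]; exact f2
  · rw [← fsc _ (cA_lt t), c6]; exact f3

/-- the permutation of the ground set coded by g -/
theorem perm6_of (n : ℕ) : ∃ π : Equiv.Perm (Fin 6), ∀ i : Fin 6,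
    dig (tG6.get (n &&& 1023)) (3 * i.val) = (π i).val := by
  have hn : n &&& 1023 < 1024 := lt_of_le_of_lt Nat.and_le_right (by norm_num)
  have h := g6_chk _ hn
  let f : Fin 6 → Fin 6 := fun i => ⟨dig (tG6.get (n &&& 1023)) (3 * i.val), (h i.val i.isLt).1⟩
  have hf : Function.Injective f := by
    intro i j hij
    exact Fin.ext ((h i.val i.isLt).2 j.val j.isLt (congrArg Fin.val hij))
  exact ⟨Equiv.ofBijective f ⟨hf, Finite.surjective_of_injective hf⟩, fun i => rfl⟩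

theorem perm4_of (n : ℕ) : ∃ ρ : Equiv.Perm (Fin 4), ∀ i : Fin 4,
    (tG4.get (n &&& 31) >>> (2 * i.val)) &&& 3 = (ρ i).val := by
  have hn : n &&& 31 < 32 := lt_of_le_of_lt Nat.and_le_right (by norm_num)
  have h := g4_chk _ hn
  let f : Fin 4 → Fin 4 := fun i => ⟨(tG4.get (n &&& 31) >>> (2 * i.val)) &&& 3,
    lt_of_le_of_lt Nat.and_le_right (by norm_num)⟩
  have hf : Function.Injective f := by
    intro i j hij
    exact Fin.ext (h i.val i.isLt j.val j.isLt (congrArg Fin.val hij))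
  exact ⟨Equiv.ofBijective f ⟨hf, Finite.surjective_of_injective hf⟩, fun i => rfl⟩

theorem or0 {a b c : ℕ} (h : a &&& (b ||| c) = 0) : a &&& b = 0 ∧ a &&& c = 0 := by
  constructor
  · apply Nat.eq_of_testBit_eq
    intro i
    have := congrArg (fun z => Nat.testBit z i) h
    simp only [Nat.testBit_and, Nat.testBit_or, Nat.zero_testBit] at this ⊢
    revert this
    cases a.testBit i <;> cases b.testBit i <;> simp
  · apply Nat.eq_of_testBit_eq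
    intro i
    have := congrArg (fun z => Nat.testBit z i) h
    simp only [Nat.testBit_and, Nat.testBit_or, Nat.zero_testBit] at this ⊢
    revert this
    cases a.testBit i <;> cases c.testBit i <;> simp

theorem or8_eq (a b c d e f g h : ℕ) : or8 a b c d e f g h =
    ((a ||| b) ||| (c ||| d)) ||| ((e ||| f) ||| (g ||| h)) := rfl

theorem map_pair (π : Equiv.Perm (Fin 6)) (a b : Fin 6) :
    ({a, b} : Finset (Fin 6)).map π.toEmbedding = {π a, π b} := by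
  simp
theorem map_triple (π : Equiv.Perm (Fin 6)) (a b c : Fin 6) :
    ({a, b, c} : Finset (Fin 6)).map π.toEmbedding = {π a, π b, π c} := by
  simp
theorem map_quad (π : Equiv.Perm (Fin 6)) (a b c d : Fin 6) :
    ({a, b, c, d} : Finset (Fin 6)).map π.toEmbedding = {π a, π b, π c, π d} := by
  simp

theorem im1_eq (t : ℕ) : im1 t = item 1 t ^^^ 2 ^ t := rfl

theorem imP_eq (d k : ℕ) : imP d k = im1 (tP.get k + d) := force_eq _ _

/-- citing a root tuple -/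
theorem jN_sound (hS : Fam S) {av g h k s : ℕ} {π : Equiv.Perm (Fin 6)} {ρ : Equiv.Perm (Fin 4)}
    (hπ : ∀ i : Fin 6, dig g (3 * i.val) = (π i).val)
    (hρ : ∀ i : Fin 4, (h >>> (2 * i.val)) &&& 3 = (ρ i).val)
    (ht : rt k s < 720) (h0 : av &&& jN k g h s = 0) (hG : G S av) :
    P (act π ρ S) (rt k s) := by
  obtain ⟨a, b, x, y, n1, n2, n3, n4, n5, n6, d0, d3, d6, d9, eA, eM, eB⟩ := digN ht
  have hj : jN k g h s = imP ((h >>> dd k s) &&& 3)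
      (key4 g (dg k s 0) (dg k s 3) (dg k s 6) (dg k s 9)) := force_eq _ _
  have hk4 : key4 g (dg k s 0) (dg k s 3) (dg k s 6) (dg k s 9) = kk (π a) (π b) (π x) (π y) := by
    have e0 : dg k s 0 = 3 * a.val := by rw [← d0]; rfl
    have e3 : dg k s 3 = 3 * b.val := by rw [← d3]; rfl
    have e6 : dg k s 6 = 3 * x.val := by rw [← d6]; rfl
    have e9 : dg k s 9 = 3 * y.val := by rw [← d9]; rfl
    rw [e0, e3, e6, e9]
    have : key4 g (3 * a.val) (3 * b.val) (3 * x.val) (3 * y.val) =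
      kk (dig g (3 * a.val)) (dig g (3 * b.val)) (dig g (3 * x.val)) (dig g (3 * y.val)) := rfl
    rw [this, hπ, hπ, hπ, hπ]
  have hdd : (h >>> dd k s) &&& 3 = (ρ (dF (rt k s))).val := by
    rw [← hρ]; rfl
  rw [hj, hk4, hdd, imP_eq, im1_eq] at h0
  obtain ⟨p1, p2, p3, p4, p5⟩ := pt_spec (π a) (π b) (π x) (π y) (π.injective.ne n1)
    (π.injective.ne n2) (π.injective.ne n3) (π.injective.ne n4) (π.injective.ne n5)
    (π.injective.ne n6) (ρ (dF (rt k s))).val (ρ (dF (rt k s))).isLt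
  have hP := G_U hS (by omega) h0 hG
  have hd : dF (tP.get (kk (π a) (π b) (π x) (π y)) + (ρ (dF (rt k s))).val) = ρ (dF (rt k s)) :=
    Fin.ext p2
  refine ⟨by omega, ?_, ?_, fun h => absurd h (by omega), fun h => absurd h (by omega)⟩
  · show S (ρ (dF (rt k s))) _ _
    have := hP.hA
    rw [hd, p3, p4] at this
    rw [eA, eM, map_pair, map_triple]
    exact this
  · show S (ρ (dF (rt k s))) _ _
    have := hP.hB
    rw [hd, p4, p5] at this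
    rw [eM, eB, map_triple, map_quad]
    exact this

/-- citing a root tuple through complementation -/
theorem jD_sound (hS : Fam S) {av g h k s : ℕ} {π : Equiv.Perm (Fin 6)} {ρ : Equiv.Perm (Fin 4)}
    (hπ : ∀ i : Fin 6, dig g (3 * i.val) = (π i).val)
    (hρ : ∀ i : Fin 4, (h >>> (2 * i.val)) &&& 3 = (ρ i).val)
    (ht : rt k s < 720) (h0 : av &&& jD k g h s = 0) (hG : G S av) :
    P (dual (act π ρ S)) (rt k s) := by
  obtain ⟨a, b, x, y, n1, n2, n3, n4, n5, n6, d0, d3, d6, d9, eA, eM, eB⟩ := digD ht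
  have hj : jD k g h s = imP ((h >>> dd k s) &&& 3)
      (key4 g (dg k s 12) (dg k s 15) (dg k s 9) (dg k s 6)) := force_eq _ _
  have hk4 : key4 g (dg k s 12) (dg k s 15) (dg k s 9) (dg k s 6) = kk (π a) (π b) (π x) (π y) := by
    have e0 : dg k s 12 = 3 * a.val := by rw [← d0]; rfl
    have e3 : dg k s 15 = 3 * b.val := by rw [← d3]; rfl
    have e6 : dg k s 9 = 3 * x.val := by rw [← d6]; rfl
    have e9 : dg k s 6 = 3 * y.val := by rw [← d9]; rfl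
    rw [e0, e3, e6, e9]
    have : key4 g (3 * a.val) (3 * b.val) (3 * x.val) (3 * y.val) =
      kk (dig g (3 * a.val)) (dig g (3 * b.val)) (dig g (3 * x.val)) (dig g (3 * y.val)) := rfl
    rw [this, hπ, hπ, hπ, hπ]
  have hdd : (h >>> dd k s) &&& 3 = (ρ (dF (rt k s))).val := by
    rw [← hρ]; rfl
  rw [hj, hk4, hdd, imP_eq, im1_eq] at h0
  obtain ⟨p1, p2, p3, p4, p5⟩ := pt_spec (π a) (π b) (π x) (π y) (π.injective.ne n1)
    (π.injective.ne n2) (π.injective.ne n3) (π.injective.ne n4) (π.injective.ne n5)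
    (π.injective.ne n6) (ρ (dF (rt k s))).val (ρ (dF (rt k s))).isLt
  have hP := G_U hS (by omega) h0 hG
  have hd : dF (tP.get (kk (π a) (π b) (π x) (π y)) + (ρ (dF (rt k s))).val) = ρ (dF (rt k s)) :=
    Fin.ext p2
  refine ⟨by omega, ?_, ?_, fun h => absurd h (by omega), fun h => absurd h (by omega)⟩
  · show S (ρ (dF (rt k s))) ((fs (cA (rt k s)))ᶜ.map _) ((fs (cM (rt k s)))ᶜ.map _)
    have := hS.symm _ _ _ hP.hB
    rw [hd, p4, p5] at this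
    rw [eB, eM, map_triple, map_quad]
    exact this
  · show S (ρ (dF (rt k s))) ((fs (cM (rt k s)))ᶜ.map _) ((fs (cB (rt k s)))ᶜ.map _)
    have := hS.symm _ _ _ hP.hA
    rw [hd, p3, p4] at this
    rw [eA, eM, map_pair, map_triple]
    exact this

/-- a valid citation gives a transformed family containing the root of the cited lemma -/
theorem cite_sound (hS : Fam S) {av k gi : ℕ} (hk : k < 161) (h0 : av &&& citeM k gi = 0)
    (hG : G S av) :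
    ∃ S' : Fin 4 → Finset (Fin 6) → Finset (Fin 6) → Prop,
      Fam S' ∧ ∀ s < 8, P S' (rt k (10 * s)) := by
  obtain ⟨π, hπ⟩ := perm6_of gi
  obtain ⟨ρ, hρ⟩ := perm4_of (gi >>> 10)
  have hc : citeM k gi = Bool.rec (motive := fun _ => ℕ → ℕ) (citeF (citeD k) gi)
      (citeF (citeN k) gi) (Nat.ble gi 32767) (tG4.get ((gi >>> 10) &&& 31)) := force_eq _ _
  rw [hc] at h0
  have r := root_chk k hk
  generalize Nat.ble gi 32767 = b at h0
  cases b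
  · have h1 : av &&& citeF (citeD k) gi (tG4.get ((gi >>> 10) &&& 31)) = 0 := h0
    have h2 : citeF (citeD k) gi (tG4.get ((gi >>> 10) &&& 31)) =
      citeD k (tG4.get ((gi >>> 10) &&& 31)) (tG6.get (gi &&& 1023)) := force_eq _ _
    rw [h2] at h1
    unfold citeD at h1
    rw [or8_eq] at h1
    obtain ⟨h3, h4⟩ := or0 h1
    obtain ⟨h5, h6⟩ := or0 h3
    obtain ⟨h7, h8⟩ := or0 h4
    obtain ⟨a0, a1⟩ := or0 h5
    obtain ⟨a2, a3⟩ := or0 h6
    obtain ⟨a4, a5⟩ := or0 h7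
    obtain ⟨a6, a7⟩ := or0 h8
    refine ⟨_, (hS.act π ρ).dual, ?_⟩
    intro s hs
    have hs8 : s = 0 ∨ s = 1 ∨ s = 2 ∨ s = 3 ∨ s = 4 ∨ s = 5 ∨ s = 6 ∨ s = 7 := by omega
    rcases hs8 with rfl | rfl | rfl | rfl | rfl | rfl | rfl | rfl
    · exact jD_sound hS hπ hρ (r 0 hs) a0 hG
    · exact jD_sound hS hπ hρ (r 1 hs) a1 hG
    · exact jD_sound hS hπ hρ (r 2 hs) a2 hG
    · exact jD_sound hS hπ hρ (r 3 hs) a3 hG
    · exact jD_sound hS hπ hρ (r 4 hs) a4 hG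
    · exact jD_sound hS hπ hρ (r 5 hs) a5 hG
    · exact jD_sound hS hπ hρ (r 6 hs) a6 hG
    · exact jD_sound hS hπ hρ (r 7 hs) a7 hG
  · have h1 : av &&& citeF (citeN k) gi (tG4.get ((gi >>> 10) &&& 31)) = 0 := h0
    have h2 : citeF (citeN k) gi (tG4.get ((gi >>> 10) &&& 31)) =
      citeN k (tG4.get ((gi >>> 10) &&& 31)) (tG6.get (gi &&& 1023)) := force_eq _ _
    rw [h2] at h1
    unfold citeN at h1
    rw [or8_eq] at h1
    obtain ⟨h3, h4⟩ := or0 h1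
    obtain ⟨h5, h6⟩ := or0 h3
    obtain ⟨h7, h8⟩ := or0 h4
    obtain ⟨a0, a1⟩ := or0 h5
    obtain ⟨a2, a3⟩ := or0 h6
    obtain ⟨a4, a5⟩ := or0 h7
    obtain ⟨a6, a7⟩ := or0 h8
    refine ⟨_, hS.act π ρ, ?_⟩
    intro s hs
    have hs8 : s = 0 ∨ s = 1 ∨ s = 2 ∨ s = 3 ∨ s = 4 ∨ s = 5 ∨ s = 6 ∨ s = 7 := by omega
    rcases hs8 with rfl | rfl | rfl | rfl | rfl | rfl | rfl | rfl
    · exact jN_sound hS hπ hρ (r 0 hs) a0 hG
    · exact jN_sound hS hπ hρ (r 1 hs) a1 hG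
    · exact jN_sound hS hπ hρ (r 2 hs) a2 hG
    · exact jN_sound hS hπ hρ (r 3 hs) a3 hG
    · exact jN_sound hS hπ hρ (r 4 hs) a4 hG
    · exact jN_sound hS hπ hρ (r 5 hs) a5 hG
    · exact jN_sound hS hπ hρ (r 6 hs) a6 hG
    · exact jN_sound hS hπ hρ (r 7 hs) a7 hG

end Pool.Agent.Scd67
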