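import Mathlib

set_option autoImplicit false

namespace Pool.Agent.Scd67

open Finset

/-- The abstract properties of the relations `s and t lie on one chain of the d-th decomposition`
of four pairwise almost orthogonal symmetric chain decompositions of the 6-cube. -/
structure Fam (S : Fin 4 → Finset (Fin 6) → Finset (Fin 6) → Prop) : Prop where
  symm : ∀ d s t, S d s t → S d t s
  trans : ∀ d s t u, S d s t → S d t u → S d s u
  comp : ∀ d s t, S d s t → s ⊆ t ∨ t ⊆ s
  orth : ∀ d e s t, d ≠ e → S d s t → S e s t →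
    s = t ∨ (s = ∅ ∧ t = univ) ∨ (s = univ ∧ t = ∅)
  ex : ∀ d s k, ((s.card ≤ k ∧ k ≤ 6 - s.card) ∨ (6 - s.card ≤ k ∧ k ≤ s.card)) →
    ∃ t, t.card = k ∧ S d s t

/-- the relation attached to a family of decompositions -/
def rel (D : Fin 4 → Finset (Finset (Finset (Fin 6)))) (d : Fin 4) (s t : Finset (Fin 6)) : Prop :=
  ∃ C ∈ D d, s ∈ C ∧ t ∈ C

theorem fam_rel (D : Fin 4 → Finset (Finset (Finset (Fin 6))))
    (h1 : ∀ i,
          (∀ C ∈ D i,
              IsChain (· ⊆ ·) (C : Set (Finset (Fin 6))) ∧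
                ∃ a : ℕ, 2 * a ≤ 6 ∧ C.image Finset.card = Finset.Icc a (6 - a)) ∧
            ∀ s : Finset (Fin 6), ∃! C, C ∈ D i ∧ s ∈ C)
    (h2 : ∀ i j, i ≠ j →
          ∀ C ∈ D i, ∀ E ∈ D j,
            (∅ ∈ C → ∅ ∈ E → C ∩ E ⊆ {∅, Finset.univ}) ∧
              (¬(∅ ∈ C ∧ ∅ ∈ E) → (C ∩ E).card ≤ 1)) : Fam (rel D) := by
  constructor
  · rintro d s t ⟨C, hC, hs, ht⟩
    exact ⟨C, hC, ht, hs⟩
  · rintro d s t u ⟨C, hC, hs, ht⟩ ⟨C', hC', ht', hu⟩
    obtain ⟨E, _, hE⟩ := (h1 d).2 t
    have e1 := hE C ⟨hC, ht⟩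
    have e2 := hE C' ⟨hC', ht'⟩
    subst e1
    subst e2
    exact ⟨_, hC, hs, hu⟩
  · rintro d s t ⟨C, hC, hs, ht⟩
    rcases eq_or_ne s t with h | h
    · subst h; exact Or.inl subset_rfl
    · exact ((h1 d).1 C hC).1 (by exact_mod_cast hs) (by exact_mod_cast ht) h
  · rintro d e s t hde ⟨C, hC, hs, ht⟩ ⟨E, hE, hs', ht'⟩
    by_cases h : ∅ ∈ C ∧ ∅ ∈ E
    · have hsub := (h2 d e hde C hC E hE).1 h.1 h.2
      have m1 : s ∈ ({∅, univ} : Finset (Finset (Fin 6))) := hsub (mem_inter.2 ⟨hs, hs'⟩)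
      have m2 : t ∈ ({∅, univ} : Finset (Finset (Fin 6))) := hsub (mem_inter.2 ⟨ht, ht'⟩)
      simp only [mem_insert, mem_singleton] at m1 m2
      rcases m1 with rfl | rfl <;> rcases m2 with rfl | rfl <;> simp
    · have hc := (h2 d e hde C hC E hE).2 h
      exact Or.inl (Finset.card_le_one.1 hc s (mem_inter.2 ⟨hs, hs'⟩) t (mem_inter.2 ⟨ht, ht'⟩))
  · intro d s k hk
    obtain ⟨C, ⟨hC, hs⟩, _⟩ := (h1 d).2 s
    obtain ⟨_, a, ha, him⟩ := (h1 d).1 C hC
    have hcs : s.card ∈ C.image Finset.card := mem_image_of_mem _ hs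
    rw [him, mem_Icc] at hcs
    have hkm : k ∈ C.image Finset.card := by
      rw [him, mem_Icc]
      have h6 : s.card ≤ 6 := by simpa using Finset.card_le_univ s
      omega
    obtain ⟨t, ht, hkt⟩ := mem_image.1 hkm
    exact ⟨t, hkt, C, hC, hs, ht⟩

variable {S : Fin 4 → Finset (Fin 6) → Finset (Fin 6) → Prop}

/-- relabelling the ground set and the decompositions -/
def act (π : Equiv.Perm (Fin 6)) (ρ : Equiv.Perm (Fin 4))
    (S : Fin 4 → Finset (Fin 6) → Finset (Fin 6) → Prop) :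
    Fin 4 → Finset (Fin 6) → Finset (Fin 6) → Prop :=
  fun d s t => S (ρ d) (s.map π.toEmbedding) (t.map π.toEmbedding)

/-- complementation -/
def dual (S : Fin 4 → Finset (Fin 6) → Finset (Fin 6) → Prop) :
    Fin 4 → Finset (Fin 6) → Finset (Fin 6) → Prop :=
  fun d s t => S d sᶜ tᶜ

theorem Fam.act (h : Fam S) (π : Equiv.Perm (Fin 6)) (ρ : Equiv.Perm (Fin 4)) :
    Fam (act π ρ S) := by
  constructor
  · intro d s t; exact h.symm _ _ _
  · intro d s t u; exact h.trans _ _ _ _
  · intro d s t hst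
    rcases h.comp _ _ _ hst with h' | h'
    · exact Or.inl (by simpa using h')
    · exact Or.inr (by simpa using h')
  · intro d e s t hde h1 h2
    rcases h.orth _ _ _ _ (fun h => hde (ρ.injective h)) h1 h2 with h' | h' | h'
    · exact Or.inl (by simpa using h')
    · refine Or.inr (Or.inl ⟨by simpa using h'.1, ?_⟩)
      have := h'.2
      rw [← Finset.map_univ_equiv π] at this
      exact Finset.map_injective _ this
    · refine Or.inr (Or.inr ⟨?_, by simpa using h'.2⟩)
      have := h'.1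
      rw [← Finset.map_univ_equiv π] at this
      exact Finset.map_injective _ this
  · intro d s k hk
    obtain ⟨t, ht, hst⟩ := h.ex (ρ d) (s.map π.toEmbedding) k (by simpa using hk)
    refine ⟨t.map π.symm.toEmbedding, by simpa using ht, ?_⟩
    unfold Pool.Agent.Scd67.act
    convert hst using 1
    ext x
    simp

theorem Fam.dual (h : Fam S) : Fam (dual S) := by
  constructor
  · intro d s t; exact h.symm _ _ _
  · intro d s t u; exact h.trans _ _ _ _
  · intro d s t hst
    rcases h.comp _ _ _ hst with h' | h'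
    · exact Or.inr (by simpa using h')
    · exact Or.inl (by simpa using h')
  · intro d e s t hde h1 h2
    rcases h.orth _ _ _ _ hde h1 h2 with h' | h' | h'
    · exact Or.inl (by simpa using h')
    · exact Or.inr (Or.inr ⟨by simpa using h'.1, by simpa using h'.2⟩)
    · exact Or.inr (Or.inl ⟨by simpa using h'.1, by simpa using h'.2⟩)
  · intro d s k hk
    have h6 : s.card ≤ 6 := by simpa using Finset.card_le_univ s
    have hc : sᶜ.card = 6 - s.card := by simp [Finset.card_compl]
    by_cases hk6 : k ≤ 6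
    · obtain ⟨t, ht, hst⟩ := h.ex d sᶜ (6 - k) (by rw [hc]; omega)
      refine ⟨tᶜ, ?_, by simpa [Pool.Agent.Scd67.dual] using hst⟩
      simp [Finset.card_compl, ht]; omega
    · omega

/-- two sets of one level on one chain agree -/
theorem Fam.uniq (h : Fam S) {d : Fin 4} {X Y Z : Finset (Fin 6)} (h1 : S d X Y) (h2 : S d X Z)
    (hc : Y.card = Z.card) : Y = Z := by
  have h3 := h.trans _ _ _ _ (h.symm _ _ _ h1) h2
  rcases h.comp _ _ _ h3 with h' | h'
  · exact Finset.eq_of_subset_of_card_le h' hc.ge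
  · exact (Finset.eq_of_subset_of_card_le h' hc.le).symm

theorem Fam.refl (h : Fam S) (d : Fin 4) (X : Finset (Fin 6)) : S d X X := by
  have h6 : X.card ≤ 6 := by simpa using Finset.card_le_univ X
  obtain ⟨t, ht, hst⟩ := h.ex d X X.card (by omega)
  exact h.trans _ _ _ _ hst (h.symm _ _ _ hst)

/-- two different sets on one chain of d and on one chain of e force d = e -/
theorem Fam.color (h : Fam S) {d e : Fin 4} {X Y : Finset (Fin 6)} (h1 : S d X Y) (h2 : S e X Y)
    (hc : X.card ≠ Y.card) (hc2 : X.card + Y.card ≠ 6 ∨ X.card ≠ 0 ∧ Y.card ≠ 0) : d = e := by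
  by_contra hde
  rcases h.orth _ _ _ _ hde h1 h2 with h' | h' | h'
  · exact hc (by rw [h'])
  · rw [h'.1, h'.2] at hc2; simp at hc2
  · rw [h'.1, h'.2] at hc2; simp at hc2

theorem card_up (X : Finset (Fin 6)) (hX : X.card = 2) :
    (univ.filter (fun Y : Finset (Fin 6) => Y.card = 3 ∧ X ⊆ Y)).card = 4 := by
  revert X; decide +kernel

theorem card_down (X : Finset (Fin 6)) (hX : X.card = 4) :
    (univ.filter (fun Y : Finset (Fin 6) => Y.card = 3 ∧ Y ⊆ X)).card = 4 := by
  revert X; decide +kernel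

/-- every inclusion between levels 2 and 3 is used by some decomposition -/
theorem Fam.tight_up (h : Fam S) {X Y : Finset (Fin 6)} (hX : X.card = 2) (hY : Y.card = 3)
    (hXY : X ⊆ Y) : ∃ d, S d X Y := by
  have hex : ∀ d : Fin 4, ∃ Z, Z.card = 3 ∧ S d X Z := fun d => h.ex d X 3 (by omega)
  choose f hf3 hfS using hex
  have hinj : Function.Injective f := by
    intro d e hde
    have h1 := hfS d
    have h2 := hfS e
    rw [← hde] at h2
    exact h.color h1 h2 (by rw [hX, hf3]; decide) (by rw [hX, hf3]; decide)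
  have hsub : univ.image f ⊆ univ.filter (fun Y : Finset (Fin 6) => Y.card = 3 ∧ X ⊆ Y) := by
    intro Z hZ
    obtain ⟨d, _, rfl⟩ := mem_image.1 hZ
    rw [mem_filter]
    refine ⟨mem_univ _, hf3 d, ?_⟩
    rcases h.comp _ _ _ (hfS d) with h' | h'
    · exact h'
    · have := card_le_card h'; rw [hX, hf3] at this; omega
  have heq := Finset.eq_of_subset_of_card_le hsub (by
    rw [card_up X hX, card_image_of_injective _ hinj]; simp)
  have hmem : Y ∈ univ.image f := by rw [heq, mem_filter]; exact ⟨mem_univ _, hY, hXY⟩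
  obtain ⟨d, _, rfl⟩ := mem_image.1 hmem
  exact ⟨d, hfS d⟩

/-- every inclusion between levels 3 and 4 is used by some decomposition -/
theorem Fam.tight_down (h : Fam S) {X Y : Finset (Fin 6)} (hX : X.card = 4) (hY : Y.card = 3)
    (hXY : Y ⊆ X) : ∃ d, S d Y X := by
  have hex : ∀ d : Fin 4, ∃ Z, Z.card = 3 ∧ S d X Z := fun d => h.ex d X 3 (by omega)
  choose f hf3 hfS using hex
  have hinj : Function.Injective f := by
    intro d e hde
    have h1 := hfS d
    have h2 := hfS e
    rw [← hde] at h2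
    exact h.color h1 h2 (by rw [hX, hf3]; decide) (by rw [hX, hf3]; decide)
  have hsub : univ.image f ⊆ univ.filter (fun Y : Finset (Fin 6) => Y.card = 3 ∧ Y ⊆ X) := by
    intro Z hZ
    obtain ⟨d, _, rfl⟩ := mem_image.1 hZ
    rw [mem_filter]
    refine ⟨mem_univ _, hf3 d, ?_⟩
    rcases h.comp _ _ _ (hfS d) with h' | h'
    · have := card_le_card h'; rw [hX, hf3] at this; omega
    · exact h'
  have heq := Finset.eq_of_subset_of_card_le hsub (by
    rw [card_down X hX, card_image_of_injective _ hinj]; simp)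
  have hmem : Y ∈ univ.image f := by rw [heq, mem_filter]; exact ⟨mem_univ _, hY, hXY⟩
  obtain ⟨d, _, rfl⟩ := mem_image.1 hmem
  exact ⟨d, h.symm _ _ _ (hfS d)⟩

end Pool.Agent.Scd67
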