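import Pool.Agent.Lib_helper67.ScdTab

set_option autoImplicit false

namespace Pool.Agent.Scd67

open Finset

/-- the set coded by a natural -/
def fs (c : ℕ) : Finset (Fin 6) := univ.filter (fun i => c.testBit i.val = true)

theorem mem_fs {c : ℕ} {i : Fin 6} : i ∈ fs c ↔ c.testBit i.val = true := by simp [fs]

theorem card_fs (c : ℕ) (hc : c < 64) : (fs c).card = pc c := by
  revert c; decide +kernel

theorem exists_code : ∀ X : Finset (Fin 6), ∃ c < 64, fs c = X := by decide +kernel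

theorem fs_inj {c c' : ℕ} (hc : c < 64) (hc' : c' < 64) (h : fs c = fs c') : c = c' := by
  apply Nat.eq_of_testBit_eq
  intro i
  by_cases hi : i < 6
  · have h1 := @mem_fs c ⟨i, hi⟩
    have h2 := @mem_fs c' ⟨i, hi⟩
    rw [h] at h1
    simp only at h1 h2
    rw [Bool.eq_iff_iff, ← h1, ← h2]
  · have hp : 2 ^ 6 ≤ 2 ^ i := Nat.pow_le_pow_right (by norm_num) (by omega)
    rw [Nat.testBit_lt_two_pow (by omega), Nat.testBit_lt_two_pow (by omega)]

theorem fs_sub {c c' : ℕ} (h : c &&& c' = c) : fs c ⊆ fs c' := by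
  intro i hi
  rw [mem_fs] at hi ⊢
  rw [← h, Nat.testBit_and] at hi
  simp only [Bool.and_eq_true] at hi
  exact hi.2

theorem cA_lt (v : ℕ) : cA v < 64 := by
  have : cA v = (qOf v >>> 18) &&& 63 := rfl
  rw [this]
  exact lt_of_le_of_lt Nat.and_le_right (by norm_num)
theorem cM_lt (v : ℕ) : cM v < 64 := by
  have : cM v = (qOf v >>> 24) &&& 63 := rfl
  rw [this]
  exact lt_of_le_of_lt Nat.and_le_right (by norm_num)
theorem cB_lt (v : ℕ) : cB v < 64 := by
  have : cB v = (qOf v >>> 30) &&& 63 := rfl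
  rw [this]
  exact lt_of_le_of_lt Nat.and_le_right (by norm_num)

theorem tOf_lo {v : ℕ} (h : v < 720) : tOf v = v := by
  unfold tOf
  have : Nat.ble 720 v = false := by
    rw [Bool.eq_false_iff]
    intro h'
    exact absurd (Nat.le_of_ble_eq_true h') (by omega)
  show Bool.rec (motive := fun _ => ℕ) v _ (Nat.ble 720 v) = v
  rw [this]

theorem tOf_hi {v : ℕ} (h : 720 ≤ v) : tOf v = (v - 720) / 4 := by
  unfold tOf
  have : Nat.ble 720 v = true := Nat.ble_eq_true_of_le h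
  show Bool.rec (motive := fun _ => ℕ) v ((v - 720) / 4) (Nat.ble 720 v) = _
  rw [this]

theorem tOf_lt {v : ℕ} (h : v < 3600) : tOf v < 720 := by
  by_cases h' : v < 720
  · rw [tOf_lo h']; exact h'
  · rw [tOf_hi (by omega)]; omega

theorem dOf_eq (v : ℕ) : dOf v = tOf v % 4 := rfl
theorem dOf_lt (v : ℕ) : dOf v < 4 := Nat.mod_lt _ (by norm_num)
theorem qOf_eq (v : ℕ) : qOf v = tQ.get (tOf v / 4) := rfl

theorem qOf_base {v : ℕ} (h : v < 3600) : qOf (4 * (tOf v / 4)) = qOf v := by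
  have h1 := tOf_lt h
  have h2 : tOf (4 * (tOf v / 4)) = 4 * (tOf v / 4) := tOf_lo (by omega)
  rw [qOf_eq, qOf_eq, h2]
  congr 1
  omega

theorem cA_of_q {v w : ℕ} (h : qOf v = qOf w) : cA v = cA w := by unfold cA; rw [h]
theorem cM_of_q {v w : ℕ} (h : qOf v = qOf w) : cM v = cM w := by unfold cM; rw [h]
theorem cB_of_q {v w : ℕ} (h : qOf v = qOf w) : cB v = cB w := by unfold cB; rw [h]

/-- the colour of a variable -/
noncomputable def dF (v : ℕ) : Fin 4 := ⟨dOf v, dOf_lt v⟩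

theorem dF_iff {v w : ℕ} : dF v = dF w ↔ dOf v = dOf w := by simp [dF]

/-- the code of the set of size k on the chain described by v -/
noncomputable def lev (v k : ℕ) : ℕ :=
  if k = 1 then 2 ^ iOf v else if k = 2 then cA v else if k = 3 then cM v else if k = 4 then cB v
  else 63 - 2 ^ jOf v

/-- the levels recorded by v -/
def okk (v k : ℕ) : Prop := (2 ≤ k ∧ k ≤ 4) ∨ (720 ≤ v ∧ 1 ≤ k ∧ k ≤ 5)

variable {S : Fin 4 → Finset (Fin 6) → Finset (Fin 6) → Prop}

/-- the variable v is true for S -/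
structure P (S : Fin 4 → Finset (Fin 6) → Finset (Fin 6) → Prop) (v : ℕ) : Prop where
  lt : v < 3600
  hA : S (dF v) (fs (cA v)) (fs (cM v))
  hB : S (dF v) (fs (cM v)) (fs (cB v))
  hI : 720 ≤ v → S (dF v) (fs (2 ^ iOf v)) (fs (cM v))
  hJ : 720 ≤ v → S (dF v) (fs (cM v)) (fs (63 - 2 ^ jOf v))

theorem pc_single (i : ℕ) (hi : i < 6) : pc (2 ^ i) = 1 ∧ 2 ^ i < 64 ∧ pc (63 - 2 ^ i) = 5 ∧ 63 - 2 ^ i < 64 := by
  revert i; decide +kernel

theorem pc_lev {v k : ℕ} (hv : v < 3600) (hk : okk v k) : pc (lev v k) = k ∧ lev v k < 64 := by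
  obtain ⟨b1, b2, b3, b4, b5, b6, b7, b8, b9⟩ := basic v hv
  have p1 := pc_single _ b6
  have p2 := pc_single _ b7
  have hk' : k = 1 ∨ k = 2 ∨ k = 3 ∨ k = 4 ∨ k = 5 := by unfold okk at hk; omega
  rcases hk' with rfl | rfl | rfl | rfl | rfl
  · exact ⟨by simp [lev, p1.1], by simpa [lev] using p1.2.1⟩
  · exact ⟨by simp [lev, b1], by simpa [lev] using cA_lt v⟩
  · exact ⟨by simp [lev, b2], by simpa [lev] using cM_lt v⟩
  · exact ⟨by simp [lev, b3], by simpa [lev] using cB_lt v⟩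
  · exact ⟨by simp [lev, p2.2.2.1], by simpa [lev] using p2.2.2.2⟩

theorem P.base (hS : Fam S) {v k : ℕ} (hv : P S v) (hk : okk v k) :
    S (dF v) (fs (lev v k)) (fs (cM v)) := by
  have hk' : k = 2 ∨ k = 3 ∨ k = 4 ∨ (720 ≤ v ∧ k = 1) ∨ (720 ≤ v ∧ k = 5) := by
    unfold okk at hk; omega
  rcases hk' with rfl | rfl | rfl | ⟨h, rfl⟩ | ⟨h, rfl⟩
  · simpa [lev] using hv.hA
  · simpa [lev] using hS.refl _ _
  · simpa [lev] using hS.symm _ _ _ hv.hB
  · simpa [lev] using hv.hI h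
  · simpa [lev] using hS.symm _ _ _ (hv.hJ h)

theorem P.rel (hS : Fam S) {v k l : ℕ} (hv : P S v) (hk : okk v k) (hl : okk v l) :
    S (dF v) (fs (lev v k)) (fs (lev v l)) :=
  hS.trans _ _ _ _ (hv.base hS hk) (hS.symm _ _ _ (hv.base hS hl))

theorem amo1 (hS : Fam S) {v w k l : ℕ} (hv : P S v) (hw : P S w) (h1 : okk v k) (h2 : okk w k)
    (h3 : okk v l) (h4 : okk w l) (hkl : k ≠ l) (e1 : lev v k = lev w k) (e2 : lev v l = lev w l) :
    dF v = dF w := by
  have r1 := hv.rel hS h1 h3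
  have r2 := hw.rel hS h2 h4
  rw [← e1, ← e2] at r2
  have p1 := pc_lev hv.lt h1
  have p2 := pc_lev hv.lt h3
  have c1 : (fs (lev v k)).card = k := by rw [card_fs _ p1.2, p1.1]
  have c2 : (fs (lev v l)).card = l := by rw [card_fs _ p2.2, p2.1]
  refine hS.color r1 r2 (by rw [c1, c2]; exact hkl) ?_
  rw [c1, c2]
  right
  unfold okk at h1 h3
  omega

theorem amo2 (hS : Fam S) {v w k l : ℕ} (hv : P S v) (hw : P S w) (hd : dF v = dF w)
    (h1 : okk v k) (h2 : okk w k) (h3 : okk v l) (h4 : okk w l) (e1 : lev v k = lev w k) :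
    lev v l = lev w l := by
  have r1 := hv.rel hS h1 h3
  have r2 := hw.rel hS h2 h4
  rw [← e1, ← hd] at r2
  have p1 := pc_lev hv.lt h3
  have p2 := pc_lev hw.lt h4
  have c1 : (fs (lev v l)).card = l := by rw [card_fs _ p1.2, p1.1]
  have c2 : (fs (lev w l)).card = l := by rw [card_fs _ p2.2, p2.1]
  exact fs_inj p1.2 p2.2 (hS.uniq r1 r2 (by rw [c1, c2]))

end Pool.Agent.Scd67
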