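import Pool.Agent.Lib_helper67.ScdSem

set_option autoImplicit false

namespace Pool.Agent.Scd67

open Finset

theorem maskspec {T : BT} {n c c' w : ℕ}
    (hd : ∀ c, c < n → ∀ c', c' < n → c ≠ c' → T.get c &&& T.get c' = 0)
    (hc : c < n) (hc' : c' < n) (hself : (T.get c').testBit w = true) :
    (T.get c).testBit w = true ↔ c = c' := by
  constructor
  · intro h
    by_contra hne
    have h0 := hd c hc c' hc' hne
    have : (T.get c &&& T.get c').testBit w = true := by rw [Nat.testBit_and, h, hself]; rfl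
    rw [h0] at this
    simp at this
  · rintro rfl; exact hself

theorem aD_iff (v : ℕ) {w : ℕ} (hw : w < 3600) : (aD v).testBit w = true ↔ dOf v = dOf w :=
  maskspec disj_D (dOf_lt v) (dOf_lt w) (self w hw).1
theorem aA_iff (v : ℕ) {w : ℕ} (hw : w < 3600) : (aA v).testBit w = true ↔ cA v = cA w :=
  maskspec disj_A (cA_lt v) (cA_lt w) (self w hw).2.1
theorem aM_iff (v : ℕ) {w : ℕ} (hw : w < 3600) : (aM v).testBit w = true ↔ cM v = cM w :=
  maskspec disj_M (cM_lt v) (cM_lt w) (self w hw).2.2.1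
theorem aB_iff (v : ℕ) {w : ℕ} (hw : w < 3600) : (aB v).testBit w = true ↔ cB v = cB w :=
  maskspec disj_B (cB_lt v) (cB_lt w) (self w hw).2.2.2.1

theorem iOf_lt {v : ℕ} (hv : v < 3600) : iOf v < 6 := (basic v hv).2.2.2.2.2.1
theorem jOf_lt {v : ℕ} (hv : v < 3600) : jOf v < 6 := (basic v hv).2.2.2.2.2.2.1

theorem aI_iff {v w : ℕ} (hv : v < 3600) (hw : w < 3600) (h : 720 ≤ w) :
    (aI v).testBit w = true ↔ iOf v = iOf w :=
  maskspec disj_I (by have := iOf_lt hv; omega) (by have := iOf_lt hw; omega) ((self w hw).2.2.2.2 h).1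
theorem aJ_iff {v w : ℕ} (hv : v < 3600) (hw : w < 3600) (h : 720 ≤ w) :
    (aJ v).testBit w = true ↔ jOf v = jOf w :=
  maskspec disj_J (by have := jOf_lt hv; omega) (by have := jOf_lt hw; omega) ((self w hw).2.2.2.2 h).2

theorem tall_bit (w : ℕ) : TALL.testBit w = decide (w < 720) := by
  rw [tall_eq, Nat.testBit_two_pow_sub_one]
theorem all_bit {w : ℕ} (h : w < 3600) : ALL.testBit w = true := by
  rw [all_eq, Nat.testBit_two_pow_sub_one]; simpa using h

theorem lowspec {m w : ℕ} (h : m &&& TALL = 0) (hw : w < 720) : m.testBit w = false := by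
  by_contra hne
  rw [Bool.not_eq_false] at hne
  have : (m &&& TALL).testBit w = true := by
    rw [Nat.testBit_and, hne, tall_bit]; simpa using hw
  rw [h] at this
  simp at this

theorem aI_lo {v w : ℕ} (hv : v < 3600) (hw : w < 720) : (aI v).testBit w = false :=
  lowspec (low_I _ (by have := iOf_lt hv; omega)) hw
theorem aJ_lo {v w : ℕ} (hv : v < 3600) (hw : w < 720) : (aJ v).testBit w = false :=
  lowspec (low_J _ (by have := jOf_lt hv; omega)) hw

theorem tinj {v w : ℕ} (hv : v < 3600) (hw : w < 3600) (h1 : dOf v = dOf w) (h2 : cA v = cA w)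
    (h3 : cM v = cM w) (h4 : cB v = cB w) : tOf v = tOf w := by
  have l1 := tOf_lt hv
  have l2 := tOf_lt hw
  have q1 := qOf_base hv
  have q2 := qOf_base hw
  have e := inj_q (tOf v / 4) (by omega) (tOf w / 4) (by omega)
    (by rw [cA_of_q q1, cA_of_q q2, h2]) (by rw [cM_of_q q1, cM_of_q q2, h3])
    (by rw [cB_of_q q1, cB_of_q q2, h4])
  rw [dOf_eq, dOf_eq] at h1
  omega

theorem linj {v w : ℕ} (hv : v < 3600) (hw : w < 3600) (gv : 720 ≤ v) (gw : 720 ≤ w)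
    (h1 : dOf v = dOf w) (h2 : cA v = cA w)
    (h3 : cM v = cM w) (h4 : cB v = cB w) (h5 : iOf v = iOf w) (h6 : jOf v = jOf w) : v = w := by
  have e := tinj hv hw h1 h2 h3 h4
  have l1 := tOf_lt hv
  have t1 := tOf_hi gv
  have t2 := tOf_hi gw
  have v1 : v = 720 + 4 * tOf v + (v - 720) % 4 := by omega
  have w1 : w = 720 + 4 * tOf v + (w - 720) % 4 := by omega
  have := inj_r (tOf v) l1 ((v - 720) % 4) (by omega) ((w - 720) % 4) (by omega)
    (by rw [← v1, ← w1]; exact h5) (by rw [← v1, ← w1]; exact h6)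
  omega

variable {S : Fin 4 → Finset (Fin 6) → Finset (Fin 6) → Prop}

theorem ok2 (v : ℕ) : okk v 2 := Or.inl ⟨by norm_num, by norm_num⟩
theorem ok3 (v : ℕ) : okk v 3 := Or.inl ⟨by norm_num, by norm_num⟩
theorem ok4 (v : ℕ) : okk v 4 := Or.inl ⟨by norm_num, by norm_num⟩
theorem ok1 {v : ℕ} (h : 720 ≤ v) : okk v 1 := Or.inr ⟨h, by norm_num, by norm_num⟩
theorem ok5 {v : ℕ} (h : 720 ≤ v) : okk v 5 := Or.inr ⟨h, by norm_num, by norm_num⟩

theorem lev2 (v : ℕ) : lev v 2 = cA v := by simp [lev]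
theorem lev3 (v : ℕ) : lev v 3 = cM v := by simp [lev]
theorem lev4 (v : ℕ) : lev v 4 = cB v := by simp [lev]

theorem lev1 (v w : ℕ) : lev v 1 = lev w 1 ↔ iOf v = iOf w := by
  simp only [lev, if_true]
  constructor
  · intro h; exact Nat.pow_right_injective (le_refl 2) h
  · intro h; rw [h]

theorem sub_inj : ∀ i < 6, ∀ j < 6, 63 - 2 ^ i = 63 - 2 ^ j → i = j := by decide

theorem lev5 {v w : ℕ} (hv : v < 3600) (hw : w < 3600) : lev v 5 = lev w 5 ↔ jOf v = jOf w := by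
  simp only [lev]
  norm_num
  constructor
  · intro h; exact sub_inj _ (jOf_lt hv) _ (jOf_lt hw) h
  · intro h; rw [h]

/-- two common attributes of two true variables force all -/
theorem allT (hS : Fam S) {v w : ℕ} (hv : P S v) (hw : P S w)
    (h : (dOf v = dOf w ∧ (cA v = cA w ∨ cM v = cM w ∨ cB v = cB w)) ∨
      (cA v = cA w ∧ (cM v = cM w ∨ cB v = cB w)) ∨ (cM v = cM w ∧ cB v = cB w)) :
    dOf v = dOf w ∧ cA v = cA w ∧ cM v = cM w ∧ cB v = cB w := by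
  have hd : dF v = dF w := by
    rcases h with ⟨h, _⟩ | ⟨h1, h2 | h2⟩ | ⟨h1, h2⟩
    · exact dF_iff.2 h
    · exact amo1 hS hv hw (ok2 v) (ok2 w) (ok3 v) (ok3 w) (by norm_num) (by rw [lev2, lev2, h1])
        (by rw [lev3, lev3, h2])
    · exact amo1 hS hv hw (ok2 v) (ok2 w) (ok4 v) (ok4 w) (by norm_num) (by rw [lev2, lev2, h1])
        (by rw [lev4, lev4, h2])
    · exact amo1 hS hv hw (ok3 v) (ok3 w) (ok4 v) (ok4 w) (by norm_num) (by rw [lev3, lev3, h1])
        (by rw [lev4, lev4, h2])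
  have key : ∃ k, okk v k ∧ okk w k ∧ lev v k = lev w k := by
    rcases h with ⟨_, h | h | h⟩ | ⟨h, _⟩ | ⟨h, _⟩
    · exact ⟨2, ok2 v, ok2 w, by rw [lev2, lev2, h]⟩
    · exact ⟨3, ok3 v, ok3 w, by rw [lev3, lev3, h]⟩
    · exact ⟨4, ok4 v, ok4 w, by rw [lev4, lev4, h]⟩
    · exact ⟨2, ok2 v, ok2 w, by rw [lev2, lev2, h]⟩
    · exact ⟨3, ok3 v, ok3 w, by rw [lev3, lev3, h]⟩
  obtain ⟨k, k1, k2, k3⟩ := key
  refine ⟨dF_iff.1 hd, ?_, ?_, ?_⟩
  · rw [← lev2, ← lev2]; exact amo2 hS hv hw hd k1 k2 (ok2 v) (ok2 w) k3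
  · rw [← lev3, ← lev3]; exact amo2 hS hv hw hd k1 k2 (ok3 v) (ok3 w) k3
  · rw [← lev4, ← lev4]; exact amo2 hS hv hw hd k1 k2 (ok4 v) (ok4 w) k3

theorem allL (hS : Fam S) {v w : ℕ} (hv : P S v) (hw : P S w) (gv : 720 ≤ v) (gw : 720 ≤ w)
    (h : (iOf v = iOf w ∧ (jOf v = jOf w ∨ dOf v = dOf w ∨ cA v = cA w ∨ cM v = cM w ∨ cB v = cB w)) ∨
      (jOf v = jOf w ∧ (dOf v = dOf w ∨ cA v = cA w ∨ cM v = cM w ∨ cB v = cB w)) ∨
      (dOf v = dOf w ∧ cA v = cA w ∧ cM v = cM w ∧ cB v = cB w)) : v = w := by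
  have e1 : iOf v = iOf w ↔ lev v 1 = lev w 1 := (lev1 v w).symm
  have e5 : jOf v = jOf w ↔ lev v 5 = lev w 5 := (lev5 hv.lt hw.lt).symm
  have e2 : cA v = cA w ↔ lev v 2 = lev w 2 := by rw [lev2, lev2]
  have e3 : cM v = cM w ↔ lev v 3 = lev w 3 := by rw [lev3, lev3]
  have e4 : cB v = cB w ↔ lev v 4 = lev w 4 := by rw [lev4, lev4]
  have a1 := @amo1 S hS v w 1
  have a5 := @amo1 S hS v w 5
  have hd : dF v = dF w := by
    rcases h with ⟨h1, h2 | h2 | h2 | h2 | h2⟩ | ⟨h1, h2 | h2 | h2 | h2⟩ | ⟨h1, _⟩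
    · exact a1 hv hw (ok1 gv) (ok1 gw) (ok5 gv) (ok5 gw) (by norm_num) (e1.1 h1) (e5.1 h2)
    · exact dF_iff.2 h2
    · exact a1 hv hw (ok1 gv) (ok1 gw) (ok2 v) (ok2 w) (by norm_num) (e1.1 h1) (e2.1 h2)
    · exact a1 hv hw (ok1 gv) (ok1 gw) (ok3 v) (ok3 w) (by norm_num) (e1.1 h1) (e3.1 h2)
    · exact a1 hv hw (ok1 gv) (ok1 gw) (ok4 v) (ok4 w) (by norm_num) (e1.1 h1) (e4.1 h2)
    · exact dF_iff.2 h2
    · exact a5 hv hw (ok5 gv) (ok5 gw) (ok2 v) (ok2 w) (by norm_num) (e5.1 h1) (e2.1 h2)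
    · exact a5 hv hw (ok5 gv) (ok5 gw) (ok3 v) (ok3 w) (by norm_num) (e5.1 h1) (e3.1 h2)
    · exact a5 hv hw (ok5 gv) (ok5 gw) (ok4 v) (ok4 w) (by norm_num) (e5.1 h1) (e4.1 h2)
    · exact dF_iff.2 h1
  have key : ∃ k, okk v k ∧ okk w k ∧ lev v k = lev w k := by
    rcases h with ⟨h, _⟩ | ⟨h, _⟩ | ⟨_, h, _⟩
    · exact ⟨1, ok1 gv, ok1 gw, e1.1 h⟩
    · exact ⟨5, ok5 gv, ok5 gw, e5.1 h⟩
    · exact ⟨2, ok2 v, ok2 w, e2.1 h⟩
  obtain ⟨k, k1, k2, k3⟩ := key
  exact linj hv.lt hw.lt gv gw (dF_iff.1 hd)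
    (e2.2 (amo2 hS hv hw hd k1 k2 (ok2 v) (ok2 w) k3))
    (e3.2 (amo2 hS hv hw hd k1 k2 (ok3 v) (ok3 w) k3))
    (e4.2 (amo2 hS hv hw hd k1 k2 (ok4 v) (ok4 w) k3))
    (e1.2 (amo2 hS hv hw hd k1 k2 (ok1 gv) (ok1 gw) k3))
    (e5.2 (amo2 hS hv hw hd k1 k2 (ok5 gv) (ok5 gw) k3))

theorem nc_lo {v : ℕ} (h : v < 720) : nc v = ALL ^^^ (cT v ^^^ cS v) := by
  have h1 : Nat.ble 720 v = false := by
    rw [Bool.eq_false_iff]
    intro h'
    exact absurd (Nat.le_of_ble_eq_true h') (by omega)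
  have : nc v = Bool.rec (motive := fun _ => ℕ → ℕ) ncT ncL (Nat.ble 720 v) v := rfl
  rw [this, h1]
  rfl

theorem nc_hi {v : ℕ} (h : 720 ≤ v) : nc v = ALL ^^^ ((cT v ||| cL v) ^^^ (2 ^ v ^^^ 2 ^ tOf v)) := by
  have h1 : Nat.ble 720 v = true := Nat.ble_eq_true_of_le h
  have : nc v = Bool.rec (motive := fun _ => ℕ → ℕ) ncT ncL (Nat.ble 720 v) v := rfl
  rw [this, h1]
  rfl

theorem cT_bit (v : ℕ) {w : ℕ} (hw : w < 3600) : (cT v).testBit w = true ↔
    (dOf v = dOf w ∧ (cA v = cA w ∨ cM v = cM w ∨ cB v = cB w)) ∨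
      (cA v = cA w ∧ (cM v = cM w ∨ cB v = cB w)) ∨ (cM v = cM w ∧ cB v = cB w) := by
  have : cT v = (aD v &&& (aA v ||| (aM v ||| aB v))) ||| ((aA v &&& (aM v ||| aB v)) ||| (aM v &&& aB v)) := rfl
  rw [this]
  simp only [Nat.testBit_or, Nat.testBit_and, Bool.or_eq_true, Bool.and_eq_true, aD_iff v hw,
    aA_iff v hw, aM_iff v hw, aB_iff v hw]

theorem cS_bit (v : ℕ) {w : ℕ} (hw : w < 3600) : (cS v).testBit w = true ↔
    (dOf v = dOf w ∧ cA v = cA w) ∧ (cM v = cM w ∧ cB v = cB w) := by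
  have : cS v = (aD v &&& aA v) &&& (aM v &&& aB v) := rfl
  rw [this]
  simp only [Nat.testBit_and, Bool.and_eq_true, aD_iff v hw,
    aA_iff v hw, aM_iff v hw, aB_iff v hw]

theorem cL_eq (v : ℕ) : cL v = (aI v &&& (aJ v ||| (aD v ||| (aA v ||| (aM v ||| aB v))))) |||
    (aJ v &&& (aD v ||| (aA v ||| (aM v ||| aB v)))) := rfl

theorem cL_hi {v w : ℕ} (hv : v < 3600) (hw : w < 3600) (gw : 720 ≤ w) : (cL v).testBit w = true ↔
    (iOf v = iOf w ∧ (jOf v = jOf w ∨ dOf v = dOf w ∨ cA v = cA w ∨ cM v = cM w ∨ cB v = cB w)) ∨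
      (jOf v = jOf w ∧ (dOf v = dOf w ∨ cA v = cA w ∨ cM v = cM w ∨ cB v = cB w)) := by
  rw [cL_eq]
  simp only [Nat.testBit_or, Nat.testBit_and, Bool.or_eq_true, Bool.and_eq_true, aD_iff v hw,
    aA_iff v hw, aM_iff v hw, aB_iff v hw, aI_iff hv hw gw, aJ_iff hv hw gw]

theorem cL_lo {v w : ℕ} (hv : v < 3600) (gw : w < 720) : (cL v).testBit w = false := by
  rw [cL_eq]
  simp only [Nat.testBit_or, Nat.testBit_and, aI_lo hv gw, aJ_lo hv gw]
  rfl

/-- no true variable conflicts with a true variable -/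
theorem nc_spec (hS : Fam S) {v w : ℕ} (hv : P S v) (hw : P S w) : (nc v).testBit w = true := by
  have hw3 := hw.lt
  have hv3 := hv.lt
  by_cases gv : v < 720
  · rw [nc_lo gv, Nat.testBit_xor, Nat.testBit_xor, all_bit hw3]
    have : (cT v).testBit w = (cS v).testBit w := by
      rw [Bool.eq_iff_iff, cT_bit v hw3, cS_bit v hw3]
      constructor
      · intro h
        obtain ⟨a, b, c, d⟩ := allT hS hv hw h
        exact ⟨⟨a, b⟩, c, d⟩
      · rintro ⟨⟨a, b⟩, c, d⟩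
        exact Or.inl ⟨a, Or.inl b⟩
    rw [this]
    simp
  · have gv' : 720 ≤ v := by omega
    rw [nc_hi gv', Nat.testBit_xor, Nat.testBit_xor, Nat.testBit_xor, all_bit hw3, Nat.testBit_or,
      Nat.testBit_two_pow, Nat.testBit_two_pow]
    by_cases gw : w < 720
    · rw [cL_lo hv3 gw]
      have hne : ¬ (v = w) := by omega
      by_cases h : (cT v).testBit w = true
      · have h' := allT hS hv hw ((cT_bit v hw3).1 h)
        have := tinj hv3 hw3 h'.1 h'.2.1 h'.2.2.1 h'.2.2.2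
        rw [tOf_lo gw] at this
        rw [h]
        simp [hne, this]
      · have hne2 : ¬ (tOf v = w) := by
          intro he
          apply h
          rw [cT_bit v hw3]
          left
          have hq : qOf v = qOf w := by rw [qOf_eq, qOf_eq, tOf_lo gw, he]
          exact ⟨by rw [dOf_eq, dOf_eq, tOf_lo gw, he], Or.inl (cA_of_q hq)⟩
        rw [Bool.not_eq_true] at h
        rw [h]
        simp [hne, hne2]
    · have gw' : 720 ≤ w := by omega
      have hne2 : ¬ (tOf v = w) := by have := tOf_lt hv3; omega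
      by_cases hvw : v = w
      · subst hvw
        have h : (cT v).testBit v = true := by
          rw [cT_bit v hw3]; exact Or.inl ⟨rfl, Or.inl rfl⟩
        rw [h]
        simp [hne2]
      · have h1 : (cT v).testBit w = false := by
          rw [← Bool.not_eq_true]
          intro h
          have h' := allT hS hv hw ((cT_bit v hw3).1 h)
          exact hvw (allL hS hv hw gv' gw' (Or.inr (Or.inr h')))
        have h2 : (cL v).testBit w = false := by
          rw [← Bool.not_eq_true]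
          intro h
          rcases (cL_hi hv3 hw3 gw').1 h with h' | h'
          · exact hvw (allL hS hv hw gv' gw' (Or.inl h'))
          · exact hvw (allL hS hv hw gv' gw' (Or.inr (Or.inl h')))
        rw [h1, h2]
        simp [hne2, hvw]

end Pool.Agent.Scd67
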