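import Pool.Agent.Lib_helper67.ScdSem2

set_option autoImplicit false

namespace Pool.Agent.Scd67

open Finset

theorem fs2 : ∀ a b : Fin 6, a ≠ b → fs (2 ^ a.val + 2 ^ b.val) = {a, b} := by decide +kernel
theorem fs3 : ∀ a b x : Fin 6, a ≠ b → a ≠ x → b ≠ x →
    fs (2 ^ a.val + 2 ^ b.val + 2 ^ x.val) = {a, b, x} := by decide +kernel
theorem fs4 : ∀ a b x y : Fin 6, a ≠ b → a ≠ x → b ≠ x → a ≠ y → b ≠ y → x ≠ y →
    fs (2 ^ a.val + 2 ^ b.val + 2 ^ x.val + 2 ^ y.val) = {a, b, x, y} := by decide +kernel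
theorem fs1 : ∀ a : Fin 6, fs (2 ^ a.val) = {a} := by decide +kernel
theorem fs5 : ∀ a : Fin 6, fs (63 - 2 ^ a.val) = {a}ᶜ := by decide +kernel

variable {S : Fin 4 → Finset (Fin 6) → Finset (Fin 6) → Prop}

theorem Fam.sub (hS : Fam S) {d : Fin 4} {X Y : Finset (Fin 6)} (h : S d X Y)
    (hc : X.card < Y.card) : X ⊆ Y := by
  rcases hS.comp _ _ _ h with h' | h'
  · exact h'
  · have := card_le_card h'; omega

/-- indices of tuples from digits -/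
theorem pt_spec (a b x y : Fin 6) (h1 : a ≠ b) (h2 : a ≠ x) (h3 : b ≠ x) (h4 : a ≠ y) (h5 : b ≠ y)
    (h6 : x ≠ y) (d : ℕ) (hd : d < 4) :
    tP.get (kk a b x y) + d < 720 ∧ dOf (tP.get (kk a b x y) + d) = d ∧
    fs (cA (tP.get (kk a b x y) + d)) = {a, b} ∧ fs (cM (tP.get (kk a b x y) + d)) = {a, b, x} ∧
    fs (cB (tP.get (kk a b x y) + d)) = {a, b, x, y} := by
  have ha := a.isLt
  have hb := b.isLt
  have hx := x.isLt
  have hy := y.isLt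
  have g1 := Fin.val_ne_of_ne h1
  have g2 := Fin.val_ne_of_ne h2
  have g3 := Fin.val_ne_of_ne h3
  have g4 := Fin.val_ne_of_ne h4
  have g5 := Fin.val_ne_of_ne h5
  have g6 := Fin.val_ne_of_ne h6
  have k1 : kk a b x y % 8 = a := by unfold kk; omega
  have k2 : kk a b x y / 8 % 8 = b := by unfold kk; omega
  have k3 : kk a b x y / 64 % 8 = x := by unfold kk; omega
  have k4 : kk a b x y / 512 % 8 = y := by unfold kk; omega
  have k5 : kk a b x y < 4096 := by unfold kk; omega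
  have hp := pt_chk _ k5
  unfold ptQ at hp
  rw [k1, k2, k3, k4] at hp
  obtain ⟨r1, r2, r3, r4, r5⟩ := hp ha hb hx hy g1 g2 g4 g3 g5 g6
  generalize tP.get (kk a b x y) = t0 at *
  have l1 : t0 + d < 720 := by omega
  have t1 : tOf (t0 + d) = t0 + d := tOf_lo l1
  have t2 : tOf t0 = t0 := tOf_lo r1
  have hq : qOf (t0 + d) = qOf t0 := by
    rw [qOf_eq, qOf_eq, t1, t2]
    congr 1
    omega
  refine ⟨l1, ?_, ?_, ?_, ?_⟩
  · rw [dOf_eq, t1]; omega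
  · rw [cA_of_q hq, r3]; exact fs2 a b h1
  · rw [cM_of_q hq, r4]; exact fs3 a b x h1 h2 h3
  · rw [cB_of_q hq, r5]; exact fs4 a b x y h1 h2 h3 h4 h5 h6

theorem exT (hS : Fam S) {d : Fin 4} {A M B : Finset (Fin 6)} (hA : A.card = 2) (hM : M.card = 3)
    (hB : B.card = 4) (h1 : S d A M) (h2 : S d M B) :
    ∃ t, t < 720 ∧ P S t ∧ dOf t = d.val ∧ fs (cA t) = A ∧ fs (cM t) = M ∧ fs (cB t) = B := by
  have s1 := hS.sub h1 (by omega)
  have s2 := hS.sub h2 (by omega)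
  obtain ⟨a, b, hab, rfl⟩ := card_eq_two.1 hA
  obtain ⟨x, hx, rfl⟩ := Finset.exists_eq_insert_iff.2 ⟨s1, by omega⟩
  obtain ⟨y, hy, rfl⟩ := Finset.exists_eq_insert_iff.2 ⟨s2, by omega⟩
  simp only [mem_insert, mem_singleton, not_or] at hx hy
  obtain ⟨p1, p2, p3, p4, p5⟩ := pt_spec a b x y hab (Ne.symm hx.1) (Ne.symm hx.2)
    (Ne.symm hy.2.1) (Ne.symm hy.2.2) (Ne.symm hy.1) d.val d.isLt
  have e3 : ({a, b, x} : Finset (Fin 6)) = insert x {a, b} := by ext z; simp; tauto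
  have e4 : ({a, b, x, y} : Finset (Fin 6)) = insert y (insert x {a, b}) := by ext z; simp; tauto
  rw [e3] at p4
  rw [e4] at p5
  have hd : dF (tP.get (kk a b x y) + d.val) = d := by apply Fin.ext; exact p2
  refine ⟨tP.get (kk a b x y) + d.val, p1, ⟨by omega, ?_, ?_, fun h => absurd h (by omega),
    fun h => absurd h (by omega)⟩, p2, p3, p4, p5⟩
  · rw [hd, p3, p4]; exact h1
  · rw [hd, p4, p5]; exact h2

theorem exL (hS : Fam S) {d : Fin 4} {A M B : Finset (Fin 6)} {i j : Fin 6} (hA : A.card = 2)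
    (hM : M.card = 3)
    (hB : B.card = 4) (h1 : S d A M) (h2 : S d M B) (h3 : S d {i} A) (h4 : S d B {j}ᶜ) :
    ∃ w, 720 ≤ w ∧ P S w ∧ dOf w = d.val ∧ iOf w = i.val ∧ jOf w = j.val := by
  obtain ⟨t, ht, hP, hd, eA, eM, eB⟩ := exT hS hA hM hB h1 h2
  have s1 := hS.sub h3 (by rw [hA]; simp)
  have s2 := hS.sub h4 (by rw [hB, card_compl]; simp)
  have hi : (cA t).testBit i.val = true := by
    rw [← mem_fs, eA]; exact s1 (mem_singleton_self i)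
  have hj : (cB t).testBit j.val = false := by
    rw [← Bool.not_eq_true, ← mem_fs, eB]
    intro h
    have := s2 h
    simp at this
  have hh := heads t ht i.val i.isLt hi j.val j.isLt hj
  have key : ∃ r < 4, iOf (720 + 4 * t + r) = i.val ∧ jOf (720 + 4 * t + r) = j.val := by
    rcases hh with h | h | h | h
    · exact ⟨0, by norm_num, h⟩
    · exact ⟨1, by norm_num, h⟩
    · exact ⟨2, by norm_num, h⟩
    · exact ⟨3, by norm_num, h⟩
  obtain ⟨r, hr, e1, e2⟩ := key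
  have tw : tOf (720 + 4 * t + r) = t := by rw [tOf_hi (by omega)]; omega
  have tt : tOf t = t := tOf_lo ht
  have hq : qOf (720 + 4 * t + r) = qOf t := by rw [qOf_eq, qOf_eq, tw, tt]
  have hdd : dOf (720 + 4 * t + r) = d.val := by rw [dOf_eq, tw, ← hd, dOf_eq, tt]
  have hdF : dF (720 + 4 * t + r) = d := by apply Fin.ext; exact hdd
  refine ⟨720 + 4 * t + r, by omega, ⟨by omega, ?_, ?_, fun _ => ?_, fun _ => ?_⟩, hdd, e1, e2⟩
  · rw [hdF, cA_of_q hq, cM_of_q hq, eA, eM]; exact h1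
  · rw [hdF, cB_of_q hq, cM_of_q hq, eB, eM]; exact h2
  · rw [hdF, cM_of_q hq, e1, eM, fs1]; exact hS.trans _ _ _ _ h3 h1
  · rw [hdF, cM_of_q hq, e2, eM, fs5]; exact hS.trans _ _ _ _ h2 h4

theorem sel_eq (b0 b1 b2 b3 b4 : Bool) (x0 x1 x2 x3 x4 x5 : ℕ) :
    Bool.rec (motive := fun _ => ℕ) (Bool.rec (motive := fun _ => ℕ) (Bool.rec (motive := fun _ => ℕ)
      (Bool.rec (motive := fun _ => ℕ) (Bool.rec (motive := fun _ => ℕ) x5 x4 b4) x3 b3) x2 b2) x1 b1) x0 b0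
    = if b0 = true then x0 else if b1 = true then x1 else if b2 = true then x2
      else if b3 = true then x3 else if b4 = true then x4 else x5 := by
  cases b0 <;> cases b1 <;> cases b2 <;> cases b3 <;> cases b4 <;> rfl

theorem item_eq (ty v : ℕ) : item ty v =
    if ty = 0 then TALL &&& (aA v &&& aM v) else if ty = 1 then TALL &&& (aD v &&& aA v)
    else if ty = 2 then TALL &&& (aM v &&& aB v) else if ty = 3 then TALL &&& (aD v &&& aB v)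
    else if ty = 4 then aD v &&& aI v else aD v &&& aJ v := by
  have h := sel_eq (Nat.beq ty 0) (Nat.beq ty 1) (Nat.beq ty 2) (Nat.beq ty 3) (Nat.beq ty 4)
    (TALL &&& (aA v &&& aM v)) (TALL &&& (aD v &&& aA v)) (TALL &&& (aM v &&& aB v))
    (TALL &&& (aD v &&& aB v)) (aD v &&& aI v) (aD v &&& aJ v)
  simp only [Nat.beq_eq] at h
  rw [← h]
  unfold item
  rfl

theorem and_tall {m w : ℕ} (h1 : w < 720) (h2 : m.testBit w = true) :
    (TALL &&& m).testBit w = true := by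
  rw [Nat.testBit_and, tall_bit, h2]; simpa using h1

theorem card_A {v : ℕ} (hv : v < 3600) : (fs (cA v)).card = 2 := by
  rw [card_fs _ (cA_lt v), (basic v hv).1]
theorem card_M {v : ℕ} (hv : v < 3600) : (fs (cM v)).card = 3 := by
  rw [card_fs _ (cM_lt v), (basic v hv).2.1]
theorem card_B {v : ℕ} (hv : v < 3600) : (fs (cB v)).card = 4 := by
  rw [card_fs _ (cB_lt v), (basic v hv).2.2.1]

/-- every item contains a true variable -/
theorem item_spec (hS : Fam S) (ty : ℕ) {v : ℕ} (hv : v < 3600) :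
    ∃ w, P S w ∧ (item ty v).testBit w = true := by
  have cA2 := card_A hv
  have cM3 := card_M hv
  have cB4 := card_B hv
  have sAM : fs (cA v) ⊆ fs (cM v) := fs_sub (basic v hv).2.2.2.1
  have sMB : fs (cM v) ⊆ fs (cB v) := fs_sub (basic v hv).2.2.2.2.1
  rw [item_eq]
  split_ifs with t0 t1 t2 t3 t4
  · -- (A, M)
    obtain ⟨d, hd⟩ := hS.tight_up cA2 cM3 sAM
    obtain ⟨B, hB, hAB⟩ := hS.ex d (fs (cA v)) 4 (by omega)
    have hMB := hS.trans _ _ _ _ (hS.symm _ _ _ hd) hAB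
    obtain ⟨t, ht, hP, hdt, eA, eM, eB⟩ := exT hS cA2 cM3 hB hd hMB
    refine ⟨t, hP, and_tall ht ?_⟩
    rw [Nat.testBit_and, (aA_iff v hP.lt).2 (fs_inj (cA_lt _) (cA_lt _) eA.symm),
      (aM_iff v hP.lt).2 (fs_inj (cM_lt _) (cM_lt _) eM.symm)]
    rfl
  · -- (D, A)
    obtain ⟨M, hM, hAM⟩ := hS.ex (dF v) (fs (cA v)) 3 (by omega)
    obtain ⟨B, hB, hAB⟩ := hS.ex (dF v) (fs (cA v)) 4 (by omega)
    have hMB := hS.trans _ _ _ _ (hS.symm _ _ _ hAM) hAB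
    obtain ⟨t, ht, hP, hdt, eA, eM, eB⟩ := exT hS cA2 hM hB hAM hMB
    refine ⟨t, hP, and_tall ht ?_⟩
    rw [Nat.testBit_and, (aA_iff v hP.lt).2 (fs_inj (cA_lt _) (cA_lt _) eA.symm),
      (aD_iff v hP.lt).2 (by rw [hdt]; rfl)]
    rfl
  · -- (M, B)
    obtain ⟨d, hd⟩ := hS.tight_down cB4 cM3 sMB
    obtain ⟨A, hA, hBA⟩ := hS.ex d (fs (cB v)) 2 (by omega)
    have hAM := hS.symm _ _ _ (hS.trans _ _ _ _ hd hBA)
    obtain ⟨t, ht, hP, hdt, eA, eM, eB⟩ := exT hS hA cM3 cB4 hAM hd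
    refine ⟨t, hP, and_tall ht ?_⟩
    rw [Nat.testBit_and, (aM_iff v hP.lt).2 (fs_inj (cM_lt _) (cM_lt _) eM.symm),
      (aB_iff v hP.lt).2 (fs_inj (cB_lt _) (cB_lt _) eB.symm)]
    rfl
  · -- (D, B)
    obtain ⟨M, hM, hBM⟩ := hS.ex (dF v) (fs (cB v)) 3 (by omega)
    obtain ⟨A, hA, hBA⟩ := hS.ex (dF v) (fs (cB v)) 2 (by omega)
    have hMB := hS.symm _ _ _ hBM
    have hAM := hS.symm _ _ _ (hS.trans _ _ _ _ hMB hBA)
    obtain ⟨t, ht, hP, hdt, eA, eM, eB⟩ := exT hS hA hM cB4 hAM hMB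
    refine ⟨t, hP, and_tall ht ?_⟩
    rw [Nat.testBit_and, (aD_iff v hP.lt).2 (by rw [hdt]; rfl),
      (aB_iff v hP.lt).2 (fs_inj (cB_lt _) (cB_lt _) eB.symm)]
    rfl
  · -- (D, i)
    have c1 : ({(⟨iOf v, iOf_lt hv⟩ : Fin 6)} : Finset (Fin 6)).card = 1 := card_singleton _
    obtain ⟨A, hA, h1A⟩ := hS.ex (dF v) {⟨iOf v, iOf_lt hv⟩} 2 (by omega)
    obtain ⟨M, hM, h1M⟩ := hS.ex (dF v) {⟨iOf v, iOf_lt hv⟩} 3 (by omega)
    obtain ⟨B, hB, h1B⟩ := hS.ex (dF v) {⟨iOf v, iOf_lt hv⟩} 4 (by omega)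
    obtain ⟨J, hJ, h1J⟩ := hS.ex (dF v) {⟨iOf v, iOf_lt hv⟩} 5 (by omega)
    have hJc : Jᶜ.card = 1 := by rw [card_compl, hJ]; simp
    obtain ⟨j, hj⟩ := card_eq_one.1 hJc
    have hJ' : J = {j}ᶜ := by rw [← hj, compl_compl]
    rw [hJ'] at h1J
    obtain ⟨w, gw, hP, hdt, ei, ej⟩ := exL hS hA hM hB (hS.trans _ _ _ _ (hS.symm _ _ _ h1A) h1M)
      (hS.trans _ _ _ _ (hS.symm _ _ _ h1M) h1B) h1A (hS.trans _ _ _ _ (hS.symm _ _ _ h1B) h1J)
    refine ⟨w, hP, ?_⟩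
    rw [Nat.testBit_and, (aD_iff v hP.lt).2 (by rw [hdt]; rfl), (aI_iff hv hP.lt gw).2 (by rw [ei])]
    rfl
  · -- (D, j)
    have c5 : ({(⟨jOf v, jOf_lt hv⟩ : Fin 6)}ᶜ : Finset (Fin 6)).card = 5 := by
      rw [card_compl]; simp
    obtain ⟨A, hA, h1A⟩ := hS.ex (dF v) {⟨jOf v, jOf_lt hv⟩}ᶜ 2 (by omega)
    obtain ⟨M, hM, h1M⟩ := hS.ex (dF v) {⟨jOf v, jOf_lt hv⟩}ᶜ 3 (by omega)
    obtain ⟨B, hB, h1B⟩ := hS.ex (dF v) {⟨jOf v, jOf_lt hv⟩}ᶜ 4 (by omega)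
    obtain ⟨I, hI, h1I⟩ := hS.ex (dF v) {⟨jOf v, jOf_lt hv⟩}ᶜ 1 (by omega)
    obtain ⟨i, rfl⟩ := card_eq_one.1 hI
    obtain ⟨w, gw, hP, hdt, ei, ej⟩ := exL hS hA hM hB (hS.trans _ _ _ _ (hS.symm _ _ _ h1A) h1M)
      (hS.trans _ _ _ _ (hS.symm _ _ _ h1M) h1B) (hS.trans _ _ _ _ (hS.symm _ _ _ h1I) h1A)
      (hS.symm _ _ _ h1B)
    refine ⟨w, hP, ?_⟩
    rw [Nat.testBit_and, (aD_iff v hP.lt).2 (by rw [hdt]; rfl), (aJ_iff hv hP.lt gw).2 (by rw [ej])]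
    rfl

end Pool.Agent.Scd67
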