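import Pool.Agent.Lib_helper67.ScdCite

/-!
# Soundness of the certificate checker

A variable `t < 720` says: on one chain of the decomposition of colour `dOf t` lie the sets
coded by `cA t ⊂ cM t ⊂ cB t` of sizes 2, 3, 4; a variable `v ≥ 720` says this for `tOf v` and in
addition that the sets of sizes 1 and 5 of that chain are `{iOf v}` and the complement of
`{jOf v}`. Two true variables with two common attributes agree (`nc_spec`), and each item
(inclusion between levels 2 and 3, or 3 and 4, which are all used since there are four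
decompositions; or a decomposition and a set of size 2, 4, 1, 5) contains a true variable
(`item_spec`). A certificate is a depth first search: its goals are bit sets `av` of the
variables still possible; the steps are branching (`t`), using an item with one possible variable
(`u`), closing a goal by an item without possible variable (`e`), and closing a goal by citing an
earlier lemma through a permutation of the ground set, of the colours, and possibly
complementation (`c`). Lemma `k < 161` says that the eight tuples `rt k s` do not occur together.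
-/

set_option autoImplicit false

namespace Pool.Agent.Scd67

open Finset

variable {S : Fin 4 → Finset (Fin 6) → Finset (Fin 6) → Prop}

/-- some goal on the stack is good -/
def GS (S : Fin 4 → Finset (Fin 6) → Finset (Fin 6) → Prop) : Stk → Prop
  | .nil => False
  | .cons s r => G S s ∨ GS S r

inductive ActOK : Act → Prop
  | t (p : ℕ) (h : p < 3600) : ActOK (.t (nc p) (nb p))
  | u (ty p : ℕ) (h : p < 3600) : ActOK (.u (item ty p ^^^ 2 ^ p) (nc p))
  | e (ty p : ℕ) (h : p < 3600) : ActOK (.e (item ty p))
  | c (k : ℕ) : ActOK (.c k)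
  | x : ActOK .x

theorem actP_eq (op p : ℕ) (b1 b2 b3 b4 : Bool) (h : b4 = true → p < 3600) :
    ActOK (Bool.rec (motive := fun _ => Act) Act.x
   (Bool.rec (motive := fun _ => Act)
    (Bool.rec (motive := fun _ => Act)
      (Bool.rec (motive := fun _ => Act)
        (.c p)
        (.e (item (op - 8) p)) b3)
      (.u (item (op - 2) p ^^^ 2 ^ p) (nc p)) b2)
    (.t (nc p) (nb p)) b1) b4) := by
  cases b4
  · exact .x
  · cases b1
    · cases b2
      · cases b3
        · exact .c p
        · exact .e _ p (h rfl)
      · exact .u _ p (h rfl)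
    · exact .t p (h rfl)

theorem actP_ok (op p : ℕ) : ActOK (actP op p) :=
  actP_eq op p (Nat.ble op 1) (Nat.ble op 7) (Nat.ble op 13) (Nat.ble p 3599)
    (fun h => Nat.lt_succ_of_le (Nat.le_of_ble_eq_true h))

theorem actF_ok (w : ℕ) : ActOK (actF w) := by
  unfold actF
  generalize Nat.mod w (nat_lit 4096) = m
  cases m
  · exact actP_ok _ _
  · exact actP_ok _ _

/-- the lemmas before `K` hold -/
def Prev (K : ℕ) : Prop := ∀ k < K, ∀ S : Fin 4 → Finset (Fin 6) → Finset (Fin 6) → Prop,
  Fam S → ¬ ∀ s < 8, P S (rt k (10 * s))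

theorem popF_sound {ih : IH} {t : ℕ} {stk : Stk} {k : KT}
    (hih : ∀ t av stk k, ih t av stk k = true →
      (∀ av' stk', k av' stk' = true → ¬ (G S av' ∨ GS S stk')) → ¬ (G S av ∨ GS S stk))
    (h : popF ih t stk k = true)
    (hk : ∀ av' stk', k av' stk' = true → ¬ (G S av' ∨ GS S stk')) : ¬ GS S stk := by
  cases stk with
  | nil => exact fun h => h
  | cons s r => exact hih t s r k h hk

theorem disp_sound (hS : Fam S) {K : ℕ} (hK161 : K ≤ 161) (hK : Prev K) {ih : IH}
    (hih : ∀ t av stk k, ih t av stk k = true →
      (∀ av' stk', k av' stk' = true → ¬ (G S av' ∨ GS S stk')) → ¬ (G S av ∨ GS S stk))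
    (m t av : ℕ) (stk : Stk) (k : KT) (h : disp K m ih t av stk k = true)
    (hk : ∀ av' stk', k av' stk' = true → ¬ (G S av' ∨ GS S stk')) : ¬ (G S av ∨ GS S stk) := by
  have hd : disp K m = Act.rec (motive := fun _ => IH → Nat → Nat → Stk → KT → Bool)
    brT brU brE (brC K) brX (actF (Nat.succ m)) := rfl
  rw [hd] at h
  have ha := actF_ok (Nat.succ m)
  generalize actF (Nat.succ m) = a at h ha
  cases ha with
  | t p hp =>
    have h1 : ih t (av &&& nc p) (.cons (av &&& nb p) stk) k = true := h
    have h2 := hih _ _ _ _ h1 hk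
    rintro (hG | hG)
    · by_cases hP : P S p
      · exact h2 (Or.inl (G_nc hS hP hG))
      · exact h2 (Or.inr (Or.inl (G_nb hP hG)))
    · exact h2 (Or.inr (Or.inr hG))
  | u ty p hp =>
    have h1 : (Bool.rec (motive := fun _ => IH → Nat → Nat → Stk → KT → Bool)
      (fun _ _ _ _ _ => false) (fun ih => ih)
      (Nat.beq (av &&& (item ty p ^^^ 2 ^ p)) 0)) ih t (av &&& nc p) stk k = true := h
    generalize hb : Nat.beq (av &&& (item ty p ^^^ 2 ^ p)) 0 = b at h1
    cases b with
    | false => exact absurd h1 (by simp)
    | true =>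
      have h0 : av &&& (item ty p ^^^ 2 ^ p) = 0 := Nat.eq_of_beq_eq_true hb
      have h2 := hih _ _ _ _ h1 hk
      rintro (hG | hG)
      · exact h2 (Or.inl (G_nc hS (G_U hS hp h0 hG) hG))
      · exact h2 (Or.inr hG)
  | e ty p hp =>
    have h1 : (Bool.rec (motive := fun _ => IH → Nat → Stk → KT → Bool)
      (fun _ _ _ _ => false) popF
      (Nat.beq (av &&& item ty p) 0)) ih t stk k = true := h
    generalize hb : Nat.beq (av &&& item ty p) 0 = b at h1
    cases b with
    | false => exact absurd h1 (by simp)
    | true =>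
      have h0 : av &&& item ty p = 0 := Nat.eq_of_beq_eq_true hb
      rintro (hG | hG)
      · exact G_E hS hp h0 hG
      · exact popF_sound hih h1 hk hG
  | c kk =>
    have h1 : (Bool.rec (motive := fun _ => IH → Nat → Stk → KT → Bool)
      (fun _ _ _ _ => false) popF
      (Bool.rec (motive := fun _ => Bool) false
        (Nat.beq (av &&& citeM kk (t &&& 65535)) 0) (Nat.ble (Nat.succ kk) K)))
      ih (t >>> 16) stk k = true := h
    generalize hb : Nat.ble (Nat.succ kk) K = b at h1
    cases b with
    | false => exact absurd h1 (by simp)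
    | true =>
      have hkk : kk < K := Nat.le_of_ble_eq_true hb
      have h1' : (Bool.rec (motive := fun _ => IH → Nat → Stk → KT → Bool)
        (fun _ _ _ _ => false) popF
        (Nat.beq (av &&& citeM kk (t &&& 65535)) 0)) ih (t >>> 16) stk k = true := h1
      generalize hb2 : Nat.beq (av &&& citeM kk (t &&& 65535)) 0 = b2 at h1'
      cases b2 with
      | false => exact absurd h1' (by simp)
      | true =>
        have h0 : av &&& citeM kk (t &&& 65535) = 0 := Nat.eq_of_beq_eq_true hb2
        rintro (hG | hG)
        · obtain ⟨S', hS', hP⟩ := cite_sound hS (by omega) h0 hG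
          exact hK kk hkk S' hS' hP
        · exact popF_sound hih h1' hk hG
  | x => exact absurd h (by simp [brX])

theorem inner_sound (hS : Fam S) {K : ℕ} (hK161 : K ≤ 161) (hK : Prev K) (n : ℕ) :
    ∀ t av stk k, inner K n t av stk k = true →
      (∀ av' stk', k av' stk' = true → ¬ (G S av' ∨ GS S stk')) → ¬ (G S av ∨ GS S stk) := by
  induction n with
  | zero => exact fun t av stk k h hk => hk av stk h
  | succ n ih =>
    intro t av stk k h hk
    have h1 : Nat.rec (motive := fun _ => IH → Nat → Nat → Stk → KT → Bool)
      (fun _ _ av stk k => k av stk)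
      (fun m _ => disp K m) (t &&& 65535) (inner K n) (t >>> 16) av stk k = true := h
    generalize t &&& 65535 = w at h1
    cases w with
    | zero => exact hk av stk h1
    | succ m => exact disp_sound hS hK161 hK ih m _ av stk k h1 hk

theorem outer_sound (hS : Fam S) {K : ℕ} (hK161 : K ≤ 161) (hK : Prev K) (cs : Chunks) :
    ∀ av stk, outer K cs av stk = true → ¬ (G S av ∨ GS S stk) := by
  induction cs with
  | nil => intro av stk h; exact absurd h (by simp [outer])
  | cons c r ih =>
    intro av stk h
    exact inner_sound hS hK161 hK 64 c av stk (outer K r) h ih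

theorem start_eq (K : ℕ) : start K = ((nc (rt K 0) &&& nc (rt K 10)) &&& (nc (rt K 20) &&& nc (rt K 30)))
   &&& ((nc (rt K 40) &&& nc (rt K 50)) &&& (nc (rt K 60) &&& nc (rt K 70))) := rfl

/-- an accepted certificate proves the lemma -/
theorem chk_sound {K : ℕ} (hK161 : K ≤ 161) (hK : Prev K) (cs : Chunks) (h : chk K cs = true)
    (S : Fin 4 → Finset (Fin 6) → Finset (Fin 6) → Prop) (hS : Fam S) :
    ¬ ∀ s < 8, P S (rt K (10 * s)) := by
  intro hP
  apply outer_sound hS hK161 hK cs _ _ h
  left
  intro w hw
  rw [start_eq]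
  simp only [Nat.testBit_and]
  rw [nc_spec hS (hP 0 (by norm_num)) hw, nc_spec hS (hP 1 (by norm_num)) hw,
    nc_spec hS (hP 2 (by norm_num)) hw, nc_spec hS (hP 3 (by norm_num)) hw,
    nc_spec hS (hP 4 (by norm_num)) hw, nc_spec hS (hP 5 (by norm_num)) hw,
    nc_spec hS (hP 6 (by norm_num)) hw, nc_spec hS (hP 7 (by norm_num)) hw]
  rfl

theorem Prev.zero : Prev 0 := fun k hk => absurd hk (by omega)

theorem Prev.succ {K : ℕ} (hK161 : K ≤ 161) (hK : Prev K) (cs : Chunks) (h : chk K cs = true) :
    Prev (K + 1) := by
  intro k hk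
  rcases Nat.lt_succ_iff_lt_or_eq.1 hk with h' | h'
  · exact hK k h'
  · subst h'
    exact chk_sound hK161 hK cs h

theorem final_sound (hK : Prev 161) (cs : Chunks) (h : outer 161 cs ALL .nil = true)
    (S : Fin 4 → Finset (Fin 6) → Finset (Fin 6) → Prop) : ¬ Fam S := by
  intro hS
  apply outer_sound hS (le_refl _) hK cs _ _ h
  left
  intro w hw
  exact all_bit hw.lt

end Pool.Agent.Scd67
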