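import Pool.Agent.Lib_helper67.ScdFam
import Pool.Agent.Lib_helper67.ScdCore

set_option autoImplicit false
set_option maxRecDepth 100000

namespace Pool.Agent.Scd67

open Finset

noncomputable def band (a b : Bool) : Bool := Bool.rec (motive := fun _ => Bool) false b a

theorem band_true {a b : Bool} (h : band a b = true) : a = true ∧ b = true := by
  cases a <;> cases b <;> simp_all [band]

noncomputable def forceB (n : Nat) (k : Nat → Bool) : Bool :=
  Nat.rec (motive := fun _ => (Nat → Bool) → Bool) (fun k => k (nat_lit 0)) (fun m _ k => k (Nat.succ m)) n k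

theorem forceB_eq (n : Nat) (k : Nat → Bool) : forceB n k = k n := by cases n <;> rfl

theorem force_eq (n : Nat) (k : Nat → Nat) : force n k = k n := by cases n <;> rfl

/-- all values in [b, b + 2^d) satisfy f -/
noncomputable def allP (d : Nat) : (Nat → Bool) → Nat → Bool :=
  Nat.rec (motive := fun _ => (Nat → Bool) → Nat → Bool) (fun f b => forceB b f)
    (fun d ih f b => band (ih f b) (ih f (Nat.add b (Nat.pow (nat_lit 2) d)))) d

theorem allP_sound (d : Nat) (f : Nat → Bool) : ∀ b, allP d f b = true → ∀ n, b ≤ n → n < b + 2 ^ d → f n = true := by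
  induction d with
  | zero =>
    intro b h n h1 h2
    have h3 : n = b := by simp at h2; omega
    have h4 : allP 0 f b = f b := forceB_eq b f
    rw [h3, ← h4]; exact h
  | succ d ih =>
    intro b h n h1 h2
    have h3 : allP (d + 1) f b = band (allP d f b) (allP d f (b + 2 ^ d)) := rfl
    rw [h3] at h
    obtain ⟨h4, h5⟩ := band_true h
    by_cases hn : n < b + 2 ^ d
    · exact ih b h4 n h1 hn
    · refine ih _ h5 n (by omega) ?_
      rw [pow_succ] at h2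
      omega

theorem chkP (d : Nat) (Q : Nat → Prop) [DecidablePred Q]
    (h : allP d (fun v => decide (Q v)) 0 = true) : ∀ v, v < 2 ^ d → Q v := by
  intro v hv
  have := allP_sound d _ 0 h v (Nat.zero_le _) (by omega)
  exact of_decide_eq_true this

theorem chkP2 (d : Nat) (Q : Nat → Nat → Prop) [∀ c, DecidablePred (Q c)]
    (h : allP d (fun c => allP d (fun v => decide (Q c v)) 0) 0 = true) :
    ∀ c, c < 2 ^ d → ∀ v, v < 2 ^ d → Q c v := by
  intro c hc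
  have := allP_sound d _ 0 h c (Nat.zero_le _) (by omega)
  exact chkP d _ this

/-- number of bits -/
def pc (c : Nat) : Nat :=
  c % 2 + c / 2 % 2 + (c / 4 % 2 + c / 8 % 2) + (c / 16 % 2 + c / 32 % 2)

theorem basic (v : Nat) (hv : v < 3600) :
    pc (cA v) = 2 ∧ pc (cM v) = 3 ∧ pc (cB v) = 4 ∧ cA v &&& cM v = cA v ∧ cM v &&& cB v = cM v ∧
      iOf v < 6 ∧ jOf v < 6 ∧ 2 ^ iOf v &&& cA v = 2 ^ iOf v ∧ cB v &&& (63 - 2 ^ jOf v) = cB v :=
  chkP 12 (fun v => v < 3600 → pc (cA v) = 2 ∧ pc (cM v) = 3 ∧ pc (cB v) = 4 ∧ cA v &&& cM v = cA v ∧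
    cM v &&& cB v = cM v ∧ iOf v < 6 ∧ jOf v < 6 ∧ 2 ^ iOf v &&& cA v = 2 ^ iOf v ∧
    cB v &&& (63 - 2 ^ jOf v) = cB v) (by decide +kernel) v (by omega) hv

theorem self (v : Nat) (hv : v < 3600) :
    (aD v).testBit v = true ∧ (aA v).testBit v = true ∧ (aM v).testBit v = true ∧
      (aB v).testBit v = true ∧ (720 ≤ v → (aI v).testBit v = true ∧ (aJ v).testBit v = true) :=
  chkP 12 (fun v => v < 3600 → (aD v).testBit v = true ∧ (aA v).testBit v = true ∧
      (aM v).testBit v = true ∧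
      (aB v).testBit v = true ∧ (720 ≤ v → (aI v).testBit v = true ∧ (aJ v).testBit v = true))
    (by decide +kernel) v (by omega) hv

theorem disj_D (c : Nat) (hc : c < 4) (c' : Nat) (hc' : c' < 4) : c ≠ c' → tD.get c &&& tD.get c' = 0 :=
  chkP2 2 (fun c c' => c ≠ c' → tD.get c &&& tD.get c' = 0) (by decide +kernel) c hc c' hc'
theorem disj_A (c : Nat) (hc : c < 64) (c' : Nat) (hc' : c' < 64) : c ≠ c' → tA.get c &&& tA.get c' = 0 :=
  chkP2 6 (fun c c' => c ≠ c' → tA.get c &&& tA.get c' = 0) (by decide +kernel) c hc c' hc'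
theorem disj_M (c : Nat) (hc : c < 64) (c' : Nat) (hc' : c' < 64) : c ≠ c' → tM.get c &&& tM.get c' = 0 :=
  chkP2 6 (fun c c' => c ≠ c' → tM.get c &&& tM.get c' = 0) (by decide +kernel) c hc c' hc'
theorem disj_B (c : Nat) (hc : c < 64) (c' : Nat) (hc' : c' < 64) : c ≠ c' → tB.get c &&& tB.get c' = 0 :=
  chkP2 6 (fun c c' => c ≠ c' → tB.get c &&& tB.get c' = 0) (by decide +kernel) c hc c' hc'
theorem disj_I (c : Nat) (hc : c < 8) (c' : Nat) (hc' : c' < 8) : c ≠ c' → tI.get c &&& tI.get c' = 0 :=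
  chkP2 3 (fun c c' => c ≠ c' → tI.get c &&& tI.get c' = 0) (by decide +kernel) c hc c' hc'
theorem disj_J (c : Nat) (hc : c < 8) (c' : Nat) (hc' : c' < 8) : c ≠ c' → tJ.get c &&& tJ.get c' = 0 :=
  chkP2 3 (fun c c' => c ≠ c' → tJ.get c &&& tJ.get c' = 0) (by decide +kernel) c hc c' hc'

theorem low_I (c : Nat) (hc : c < 8) : tI.get c &&& TALL = 0 :=
  chkP 3 (fun c => tI.get c &&& TALL = 0) (by decide +kernel) c hc
theorem low_J (c : Nat) (hc : c < 8) : tJ.get c &&& TALL = 0 :=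
  chkP 3 (fun c => tJ.get c &&& TALL = 0) (by decide +kernel) c hc

theorem all_eq : ALL = 2 ^ 3600 - 1 := by decide +kernel
theorem tall_eq : TALL = 2 ^ 720 - 1 := by decide +kernel

/-- the key of four digits -/
def kk (a b x y : Nat) : Nat := a + 8 * (b + 8 * (x + 8 * y))

def ptQ (k : Nat) : Prop :=
  k % 8 < 6 → k / 8 % 8 < 6 → k / 64 % 8 < 6 → k / 512 % 8 < 6 → k % 8 ≠ k / 8 % 8 → k % 8 ≠ k / 64 % 8 →
    k % 8 ≠ k / 512 % 8 → k / 8 % 8 ≠ k / 64 % 8 → k / 8 % 8 ≠ k / 512 % 8 →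
    k / 64 % 8 ≠ k / 512 % 8 →
    tP.get k < 720 ∧ tP.get k % 4 = 0 ∧ cA (tP.get k) = 2 ^ (k % 8) + 2 ^ (k / 8 % 8) ∧
      cM (tP.get k) = 2 ^ (k % 8) + 2 ^ (k / 8 % 8) + 2 ^ (k / 64 % 8) ∧
      cB (tP.get k) = 2 ^ (k % 8) + 2 ^ (k / 8 % 8) + 2 ^ (k / 64 % 8) + 2 ^ (k / 512 % 8)

noncomputable instance : DecidablePred ptQ := fun k => by unfold ptQ; infer_instance

theorem pt_chk (k : Nat) (hk : k < 4096) : ptQ k :=
  chkP 12 ptQ (by decide +kernel) k hk

/-- digits and codes agree -/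
def digQ (t : Nat) : Prop :=
    (dig (qOf t) 0 < 6 ∧ dig (qOf t) 3 < 6 ∧ dig (qOf t) 6 < 6 ∧
    dig (qOf t) 9 < 6 ∧ dig (qOf t) 12 < 6 ∧ dig (qOf t) 15 < 6) ∧
    (dig (qOf t) 0 ≠ dig (qOf t) 3 ∧ dig (qOf t) 0 ≠ dig (qOf t) 6 ∧
    dig (qOf t) 3 ≠ dig (qOf t) 6 ∧ dig (qOf t) 0 ≠ dig (qOf t) 9 ∧
    dig (qOf t) 3 ≠ dig (qOf t) 9 ∧ dig (qOf t) 6 ≠ dig (qOf t) 9) ∧
    (dig (qOf t) 12 ≠ dig (qOf t) 15 ∧ dig (qOf t) 12 ≠ dig (qOf t) 9 ∧
    dig (qOf t) 15 ≠ dig (qOf t) 9 ∧ dig (qOf t) 12 ≠ dig (qOf t) 6 ∧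
    dig (qOf t) 15 ≠ dig (qOf t) 6) ∧
    (cA t = 2 ^ dig (qOf t) 0 + 2 ^ dig (qOf t) 3 ∧
    cM t = 2 ^ dig (qOf t) 0 + 2 ^ dig (qOf t) 3 + 2 ^ dig (qOf t) 6 ∧
    cB t = 2 ^ dig (qOf t) 0 + 2 ^ dig (qOf t) 3 + 2 ^ dig (qOf t) 6 +
      2 ^ dig (qOf t) 9) ∧
    (63 - cB t = 2 ^ dig (qOf t) 12 + 2 ^ dig (qOf t) 15 ∧
     63 - cM t = 2 ^ dig (qOf t) 12 + 2 ^ dig (qOf t) 15 + 2 ^ dig (qOf t) 9 ∧
     63 - cA t = 2 ^ dig (qOf t) 12 + 2 ^ dig (qOf t) 15 + 2 ^ dig (qOf t) 9 +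
       2 ^ dig (qOf t) 6)

noncomputable instance (t : Nat) : Decidable (digQ t) := by unfold digQ; infer_instance

theorem dig_chk (t : Nat) (ht : t < 720) : digQ t :=
  chkP 10 (fun t => t < 720 → digQ t) (by decide +kernel) t (by omega) ht

/-- q is determined by the three codes -/
theorem inj_q (q : Nat) (hq : q < 180) (r : Nat) (hr : r < 180) :
    cA (4 * q) = cA (4 * r) → cM (4 * q) = cM (4 * r) → cB (4 * q) = cB (4 * r) → q = r :=
  chkP2 8 (fun q r => q < 180 → r < 180 → cA (4 * q) = cA (4 * r) → cM (4 * q) = cM (4 * r) →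
    cB (4 * q) = cB (4 * r) → q = r) (by decide +kernel) q (by omega) r (by omega) hq hr

/-- the two heads determine the position -/
theorem inj_r (t : Nat) (ht : t < 720) : ∀ r < 4, ∀ s < 4,
    iOf (720 + 4 * t + r) = iOf (720 + 4 * t + s) → jOf (720 + 4 * t + r) = jOf (720 + 4 * t + s) →
    r = s :=
  chkP 10 (fun t => t < 720 → ∀ r < 4, ∀ s < 4,
    iOf (720 + 4 * t + r) = iOf (720 + 4 * t + s) → jOf (720 + 4 * t + r) = jOf (720 + 4 * t + s) →
    r = s) (by decide +kernel) t (by omega) ht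

/-- one of the four positions has the heads i, j -/
def headQ (t i j : Nat) : Prop :=
  (iOf (720 + 4 * t + 0) = i ∧ jOf (720 + 4 * t + 0) = j) ∨
      (iOf (720 + 4 * t + 1) = i ∧ jOf (720 + 4 * t + 1) = j) ∨
      (iOf (720 + 4 * t + 2) = i ∧ jOf (720 + 4 * t + 2) = j) ∨
      (iOf (720 + 4 * t + 3) = i ∧ jOf (720 + 4 * t + 3) = j)

noncomputable instance (t i j : Nat) : Decidable (headQ t i j) := by unfold headQ; infer_instance

/-- all pairs of heads occur -/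
theorem heads (t : Nat) (ht : t < 720) : ∀ i < 6, (cA t).testBit i = true →
    ∀ j < 6, (cB t).testBit j = false → headQ t i j :=
  chkP 10 (fun t => t < 720 → ∀ i < 6, (cA t).testBit i = true →
    ∀ j < 6, (cB t).testBit j = false → headQ t i j) (by decide +kernel) t (by omega) ht

/-- the tabulated permutations of the ground set -/
theorem g6_chk (n : Nat) (hn : n < 1024) : ∀ i < 6, dig (tG6.get n) (3 * i) < 6 ∧
    ∀ j < 6, dig (tG6.get n) (3 * i) = dig (tG6.get n) (3 * j) → i = j :=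
  chkP 10 (fun n => ∀ i < 6, dig (tG6.get n) (3 * i) < 6 ∧
    ∀ j < 6, dig (tG6.get n) (3 * i) = dig (tG6.get n) (3 * j) → i = j) (by decide +kernel) n hn

/-- the tabulated permutations of the colours -/
theorem g4_chk (n : Nat) (hn : n < 32) : ∀ i < 4, ∀ j < 4,
    ((tG4.get n) >>> (2 * i)) &&& 3 = ((tG4.get n) >>> (2 * j)) &&& 3 → i = j :=
  chkP 5 (fun n => ∀ i < 4, ∀ j < 4,
    ((tG4.get n) >>> (2 * i)) &&& 3 = ((tG4.get n) >>> (2 * j)) &&& 3 → i = j) (by decide +kernel) n hn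

/-- the root tuples -/
theorem root_chk (k : Nat) (hk : k < 161) : ∀ s < 8, rt k (10 * s) < 720 :=
  chkP 8 (fun k => k < 161 → ∀ s < 8, rt k (10 * s) < 720) (by decide +kernel) k (by omega) hk

end Pool.Agent.Scd67
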